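import Pool.Agent.X186.IC.Core

/-!
In a Petersen quotient of a graph without a family of pairwise disjoint and pairwise non-adjacent
vertex sets with few boundary edges every class has a flow.
-/

set_option autoImplicit false
set_option linter.unusedSectionVars false
set_option linter.unusedDecidableInType false
set_option linter.unusedFintypeInType false

namespace Pool.Agent.X186.IC

open Finset Pool.Agent.TH362.TF Pool.Agent.TH362.TF.Red
open Pool.Agent.TH362.TP (MinQ ins)
open Pool.Agent.X42.FlowQ Pool.Agent.X42.FlowSp Pool.Agent.X42.FlowH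

variable {V E : Type} [Fintype V] [DecidableEq V] [DecidableEq E]

theorem pet_no_tri : ∀ k l m : Fin 10, padj k l = true → padj l m = true → padj k m = true →
    False := by
  decide

section
variable {ι : Type} [Fintype ι] [DecidableEq ι]

/-- different sets of the family that are joined by an edge -/
def RX (s t : E → V) (S : Finset E) (X : ι → Finset V) (i j : ι) : Prop :=
  i ≠ j ∧ Adj s t S (X i) (X j)

theorem rx_symm {s t : E → V} {S : Finset E} {X : ι → Finset V} {i j : ι}
    (h : RX s t S X i j) : RX s t S X j i := by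
  obtain ⟨h1, e, he, h2⟩ := h
  exact ⟨h1.symm, e, he, h2.symm⟩

open Classical in
theorem rx_deg {s t : E → V} {S : Finset E} {X : ι → Finset V}
    (hd : ∀ i j, i ≠ j → Disjoint (X i) (X j)) (i : ι) (Y : Finset ι) :
    (Y.filter (RX s t S X i)).card ≤ bn s t S (X i) := by
  have h1 : ∀ j : {j // j ∈ Y.filter (RX s t S X i)}, ∃ e ∈ S,
      (s e ∈ X i ∧ t e ∈ X j.1) ∨ (s e ∈ X j.1 ∧ t e ∈ X i) := by
    intro j
    obtain ⟨_, e, he, h2⟩ := (mem_filter.1 j.2).2
    exact ⟨e, he, h2⟩
  choose g hg1 hg2 using h1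
  have hne : ∀ j : {j // j ∈ Y.filter (RX s t S X i)}, i ≠ j.1 := fun j =>
    (mem_filter.1 j.2).2.1
  have h2 : ((Y.filter (RX s t S X i)).attach.image g) ⊆ cut s t S (fun v => decide (v ∈ X i)) := by
    intro e he
    obtain ⟨j, _, rfl⟩ := mem_image.1 he
    unfold cut
    refine mem_filter.2 ⟨hg1 j, ?_⟩
    have h3 := hd _ _ (hne j)
    rcases hg2 j with ⟨p, q⟩ | ⟨p, q⟩
    · have h4 : t (g j) ∉ X i := fun h5 => Finset.disjoint_left.1 h3 h5 q
      simp [p, h4]
    · have h4 : s (g j) ∉ X i := fun h5 => Finset.disjoint_left.1 h3 h5 p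
      simp [q, h4]
  have h3 := card_le_card h2
  rw [card_image_of_injective, card_attach] at h3
  · exact h3
  · intro j l hjl
    have h4 := hg2 j
    have h5 := hg2 l
    rw [← hjl] at h5
    apply Subtype.ext
    by_contra hne'
    have h6 := hd _ _ hne'
    have h7 := hd _ _ (hne j)
    have h8 := hd _ _ (hne l)
    rcases h4 with ⟨p, q⟩ | ⟨p, q⟩ <;> rcases h5 with ⟨r, u⟩ | ⟨r, u⟩
    · exact Finset.disjoint_left.1 h6 q u
    · exact Finset.disjoint_left.1 h8 p r
    · exact Finset.disjoint_left.1 h7 r p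
    · exact Finset.disjoint_left.1 h6 p r

theorem off_card {X : ι → Finset V} (hd : ∀ i j, i ≠ j → Disjoint (X i) (X j)) (U : Finset V)
    [DecidablePred (fun i => Disjoint (X i) U)] :
    Fintype.card ι ≤ (univ.filter (fun i => Disjoint (X i) U)).card + U.card := by
  classical
  have h1 := Finset.card_filter_add_card_filter_not (s := (univ : Finset ι))
    (fun i => Disjoint (X i) U)
  have h2 : (univ.filter (fun i => ¬ Disjoint (X i) U)).card ≤ U.card := by
    have h3 : ∀ i : {i // i ∈ univ.filter (fun i => ¬ Disjoint (X i) U)}, ∃ v, v ∈ X i.1 ∧ v ∈ U := by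
      intro i
      exact Finset.not_disjoint_iff.1 (mem_filter.1 i.2).2
    choose g hg1 hg2 using h3
    have h4 : ((univ.filter (fun i => ¬ Disjoint (X i) U)).attach.image g) ⊆ U := by
      intro v hv
      obtain ⟨i, _, rfl⟩ := mem_image.1 hv
      exact hg2 i
    have h5 := card_le_card h4
    rw [card_image_of_injective, card_attach] at h5
    · exact h5
    · intro i j hij
      apply Subtype.ext
      by_contra hne
      have h6 := hg1 j
      rw [← hij] at h6
      exact Finset.disjoint_left.1 (hd _ _ hne) (hg1 i) h6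
  rw [card_univ] at h1
  omega

end

/-- In a Petersen quotient of a graph without such a family every class has a flow. -/
theorem sideI {s t : E → V} {S : Finset E} (h1 : N1 s t S) (U : Finset V) (a c : ℕ)
    (ha : 3 ≤ a) (hc : 1 ≤ c) (hU : 4 * a + U.card + 6 / c ≤ 21)
    (h2 : ¬ Fam s t S U a (2 * c + 1)) {κ : V → Fin 10}
    (hκ : IsPQ s t S κ) (k : Fin 10) : ∃ φ : E → F, Inn s t S κ k φ := by
  classical
  obtain ⟨k', hk'⟩ : ∃ k' : Fin 10, k' ≠ k := _root_.exists_ne k
  obtain ⟨w0, hw0⟩ : ∃ w, κ w = k' := by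
    by_contra hcon
    push Not at hcon
    have h3 := hκ.1 k'
    have h4 : cut s t S (fun v => decide (κ v = k')) = ∅ := by
      unfold cut
      rw [Finset.filter_eq_empty_iff]
      intro e _ hh
      exact hh (by simp [hcon])
    rw [h4, card_empty] at h3
    exact absurd h3 (by decide)
  have hw : κ w0 ≠ k := by rw [hw0]; exact hk'
  set f : V → V := fun v => if κ v = k then v else w0 with hf
  have hfk : ∀ v, κ v = k → f v = v := fun v hv => if_pos hv
  have hfn : ∀ v, κ v ≠ k → f v = w0 := fun v hv => if_neg hv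
  set S1 : Finset E := S.filter (fun e => κ (s e) = k ∨ κ (t e) = k) with hS1
  have hsub : S1 ⊆ S := filter_subset _ _
  have hcol : ∀ e ∈ S, e ∉ S1 → f (s e) = f (t e) := by
    intro e he he'
    have : ¬ (κ (s e) = k ∨ κ (t e) = k) := fun hh => he' (mem_filter.2 ⟨he, hh⟩)
    push Not at this
    rw [hfn _ this.1, hfn _ this.2]
  have hUf : (U.image f).card ≤ U.card := card_image_le
  rcases mainI _ _ _ (quot_n1 hsub hcol h1) (U.image f) a c ha hc (by omega)
    (fun hb => h2 (quot_fam hsub hcol hb)) with h3 | h3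
  · obtain ⟨φ, hφ1, hφ2⟩ := h3
    refine ⟨φ, ?_, ?_⟩
    · intro e he hh
      exact hφ1 e (mem_filter.2 ⟨he, hh⟩)
    · intro v hv
      have h4 := hφ2 v
      have key : ∀ u : V, (f u = v) ↔ u = v := by
        intro u
        by_cases hu : κ u = k
        · rw [hfk u hu]
        · rw [hfn u hu]
          constructor
          · intro hh
            rw [← hh] at hv
            exact absurd hv hw
          · intro hh
            rw [hh] at hu
            exact absurd hv hu
      rw [cons_iff] at h4 ⊢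
      have h5 : ∑ e ∈ S1, tm (fun e => f (s e)) (fun e => f (t e)) φ v e =
          ∑ e ∈ S1, tm s t φ v e := by
        refine sum_congr rfl fun e _ => ?_
        unfold tm
        simp only [key]
      rw [← h4, h5]
      symm
      apply sum_subset hsub
      intro e he he'
      have h6 : ¬ (κ (s e) = k ∨ κ (t e) = k) := fun hh => he' (mem_filter.2 ⟨he, hh⟩)
      push Not at h6
      unfold tm
      rw [if_neg, if_neg, add_zero]
      · intro hh
        exact h6.2 (by rw [hh]; exact hv)
      · intro hh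
        exact h6.1 (by rw [hh]; exact hv)
  · exfalso
    apply h2
    obtain ⟨κ', hκ'⟩ := h3
    set X : ({m : Fin 10 // m ≠ κ' w0} ⊕ {m : Fin 10 // m ≠ k}) → Finset V :=
      Sum.elim (fun m => univ.filter (fun v => κ' (f v) = m.1))
        (fun m => univ.filter (fun v => κ v = m.1)) with hX
    have hcard : Fintype.card ({m : Fin 10 // m ≠ κ' w0} ⊕ {m : Fin 10 // m ≠ k}) = 18 := by
      rw [Fintype.card_sum, Fintype.card_subtype_compl, Fintype.card_subtype_compl]
      simp
    have mA : ∀ (m : {m : Fin 10 // m ≠ κ' w0}) (v : V), v ∈ X (Sum.inl m) ↔ κ' (f v) = m.1 := by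
      intro m v
      show v ∈ univ.filter (fun v => κ' (f v) = m.1) ↔ _
      rw [mem_filter]
      exact ⟨fun h => h.2, fun h => ⟨mem_univ _, h⟩⟩
    have mB : ∀ (m : {m : Fin 10 // m ≠ k}) (v : V), v ∈ X (Sum.inr m) ↔ κ v = m.1 := by
      intro m v
      show v ∈ univ.filter (fun v => κ v = m.1) ↔ _
      rw [mem_filter]
      exact ⟨fun h => h.2, fun h => ⟨mem_univ _, h⟩⟩
    have mAk : ∀ (m : {m : Fin 10 // m ≠ κ' w0}) (v : V), v ∈ X (Sum.inl m) → κ v = k := by
      intro m v hv
      by_contra hcon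
      rw [mA, hfn v hcon] at hv
      exact m.2 hv.symm
    have hthree : ∀ i, bn s t S (X i) = 3 := by
      rintro (m | m)
      · rw [← hκ'.1 m.1, quot_cut hsub hcol]
        unfold bn
        congr 2
        funext v
        rw [decide_eq_decide]
        exact mA m v
      · rw [← hκ.1 m.1]
        unfold bn
        congr 2
        funext v
        rw [decide_eq_decide]
        exact mB m v
    have hdis : ∀ i j, i ≠ j → Disjoint (X i) (X j) := by
      rintro (i | i) (j | j) hij
      · rw [Finset.disjoint_left]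
        intro v hv hv'
        rw [mA] at hv hv'
        exact hij (congrArg Sum.inl (Subtype.ext (hv.symm.trans hv')))
      · rw [Finset.disjoint_left]
        intro v hv hv'
        have h4 := mAk i v hv
        rw [mB, h4] at hv'
        exact j.2 hv'.symm
      · rw [Finset.disjoint_left]
        intro v hv hv'
        have h4 := mAk j v hv'
        rw [mB, h4] at hv
        exact i.2 hv.symm
      · rw [Finset.disjoint_left]
        intro v hv hv'
        rw [mB] at hv hv'
        exact hij (congrArg Sum.inr (Subtype.ext (hv.symm.trans hv')))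
    -- the adjacencies
    have fAA : ∀ i j, RX s t S X (Sum.inl i) (Sum.inl j) → padj i.1 j.1 = true := by
      rintro i j ⟨hij, e, he, h4⟩
      have hij' : i.1 ≠ j.1 := fun hh => hij (congrArg Sum.inl (Subtype.ext hh))
      rw [mA, mA, mA, mA] at h4
      have h5 : e ∈ S1 := by
        by_contra hcon
        have h6 := hcol e he hcon
        rcases h4 with ⟨p, q⟩ | ⟨p, q⟩
        · exact hij' (p.symm.trans ((congrArg κ' h6).trans q))
        · exact hij' (q.symm.trans ((congrArg κ' h6).symm.trans p))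
      exact (Str.pq_join hκ' hij' h5 h4).1
    have fBB : ∀ i j, RX s t S X (Sum.inr i) (Sum.inr j) → padj i.1 j.1 = true := by
      rintro i j ⟨hij, e, he, h4⟩
      have hij' : i.1 ≠ j.1 := fun hh => hij (congrArg Sum.inr (Subtype.ext hh))
      rw [mB, mB, mB, mB] at h4
      exact (Str.pq_join hκ hij' he h4).1
    have fAB : ∀ i j, RX s t S X (Sum.inl i) (Sum.inr j) → ∃ e ∈ S, Joins κ s t k j.1 e ∧
        ((s e ∈ X (Sum.inl i) ∧ t e ∈ X (Sum.inr j)) ∨
          (s e ∈ X (Sum.inr j) ∧ t e ∈ X (Sum.inl i))) := by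
      rintro i j ⟨_, e, he, h4⟩
      refine ⟨e, he, ?_, h4⟩
      rcases h4 with ⟨p, q⟩ | ⟨p, q⟩
      · exact Or.inl ⟨mAk i _ p, (mB j _).1 q⟩
      · exact Or.inr ⟨(mB j _).1 p, mAk i _ q⟩
    have gAB : ∀ i j, RX s t S X (Sum.inl i) (Sum.inr j) → padj k j.1 = true := by
      intro i j h4
      obtain ⟨e, he, h5, _⟩ := fAB i j h4
      exact (Str.pq_join hκ (Ne.symm j.2) he h5).1
    have fAAB : ∀ i i' j, RX s t S X (Sum.inl i) (Sum.inr j) →
        RX s t S X (Sum.inl i') (Sum.inr j) → (Sum.inl i : {m : Fin 10 // m ≠ κ' w0} ⊕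
          {m : Fin 10 // m ≠ k}) = Sum.inl i' := by
      intro i i' j h4 h5
      obtain ⟨e, he, h6, h7⟩ := fAB i j h4
      obtain ⟨e', he', h8, h9⟩ := fAB i' j h5
      have h10 := (Str.pq_join hκ (Ne.symm j.2) he h6).2 e' he' h8
      subst h10
      by_contra hne
      have d1 := hdis _ _ hne
      have d2 := hdis (Sum.inl i) (Sum.inr j) (by simp)
      have d3 := hdis (Sum.inl i') (Sum.inr j) (by simp)
      rcases h7 with ⟨p, q⟩ | ⟨p, q⟩ <;> rcases h9 with ⟨r, u⟩ | ⟨r, u⟩
      · exact Finset.disjoint_left.1 d1 p r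
      · exact Finset.disjoint_left.1 d2 p r
      · exact Finset.disjoint_left.1 d3 r p
      · exact Finset.disjoint_left.1 d1 q u
    have hTF : TF (RX s t S X) := by
      refine ⟨fun i j h4 => rx_symm h4, fun i h4 => h4.1 rfl, ?_⟩
      rintro (i | i) (j | j) (l | l) h4 h5 h6
      · exact pet_no_tri _ _ _ (fAA _ _ h4) (fAA _ _ h5) (fAA _ _ h6)
      · exact h4.1 (fAAB _ _ _ h6 h5)
      · exact h6.1 (fAAB _ _ _ h4 (rx_symm h5))
      · exact pet_no_tri _ _ _ (gAB _ _ h4) (fBB _ _ h5) (gAB _ _ h6)
      · exact h5.1 (fAAB _ _ _ (rx_symm h4) (rx_symm h6))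
      · exact pet_no_tri _ _ _ (gAB _ _ (rx_symm h4)) (fBB _ _ h6) (gAB _ _ h5)
      · exact pet_no_tri _ _ _ (gAB _ _ (rx_symm h6)) (fBB _ _ h4) (gAB _ _ (rx_symm h5))
      · exact pet_no_tri _ _ _ (fBB _ _ h4) (fBB _ _ h5) (fBB _ _ h6)
    have hoff := off_card hdis U
    rw [hcard] at hoff
    have hU' : 4 * a + U.card ≤ 21 := le_trans (Nat.le_add_right _ _) hU
    obtain ⟨I, hI1, hI2, hI3⟩ := many hTF (Z := univ) (by
      intro Y _ hY
      obtain ⟨i, hi⟩ := hY
      exact ⟨i, hi, (rx_deg hdis i Y).trans (hthree i).le⟩) (a - 3)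
      (univ.filter (fun i => Disjoint (X i) U)) (subset_univ _) (by omega)
    refine fam_of I X (by omega) ?_ ?_ ?_
    · intro i hi j hj hij
      refine ⟨hdis i j hij, fun h4 => hI3 i hi j hj ⟨hij, h4⟩⟩
    · intro i hi
      exact (mem_filter.1 (hI1 hi)).2
    · intro i _
      rw [hthree i]
      exact ⟨by decide, by omega⟩

end Pool.Agent.X186.IC
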