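import Pool.Agent.X42.FewCuts
import Pool.Agent.X186.IC.Side

/-!
Definitions for the statements about multigraphs with few pairwise disjoint and pairwise
non-adjacent vertex sets with small boundaries. A multigraph with vertex set `V` and edge set `E` is
given by two maps `s t : E → V` (the ends of the edges; loops and parallel edges are allowed).
-/

set_option autoImplicit false
set_option linter.unusedSectionVars false
set_option linter.unusedDecidableInType false
set_option linter.unusedFintypeInType false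

namespace Pool.Agent.X186.IC

open Pool.Agent.X42.FewCuts (boundary bn_eq)

/-- Some edge has one end in `X` and the other in `Y`. -/
def Adjacent {V E : Type} (s t : E → V) (X Y : Set V) : Prop :=
  ∃ e, (s e ∈ X ∧ t e ∈ Y) ∨ (s e ∈ Y ∧ t e ∈ X)

/-- There are a set `U` of vertices and numbers `a ≥ 3` and `c ≥ 1` with
`4 a + |U| + ⌊6 / c⌋ ≤ 21` such that there are no `a + 1` pairwise disjoint and pairwise
non-adjacent vertex sets, all of them disjoint from `U`, each with an odd number, at most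
`2 c + 1`, of boundary edges. -/
def IndependentSmallCuts {V E : Type} (s t : E → V) : Prop :=
  ∃ (U : Set V) (a c : ℕ), 3 ≤ a ∧ 1 ≤ c ∧ 4 * a + U.ncard + 6 / c ≤ 21 ∧
    ¬ ∃ X : Fin (a + 1) → Set V,
      (∀ i j, i ≠ j → Disjoint (X i) (X j) ∧ ¬ Adjacent s t (X i) (X j)) ∧
      (∀ i, Disjoint (X i) U) ∧
      ∀ i, Odd (boundary s t (X i)) ∧ boundary s t (X i) ≤ 2 * c + 1

section

open Finset Pool.Agent.TH362.TF Pool.Agent.X42.FlowH

variable {V E : Type} [Fintype V] [DecidableEq V] [Fintype E] [DecidableEq E]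

theorem of_indep {s t : E → V} (h : IndependentSmallCuts s t) :
    ∃ (U : Finset V) (a c : ℕ), 3 ≤ a ∧ 1 ≤ c ∧ 4 * a + U.card + 6 / c ≤ 21 ∧
      ¬ Fam s t univ U a (2 * c + 1) := by
  classical
  obtain ⟨U, a, c, ha, hc, hU, h1⟩ := h
  refine ⟨U.toFinset, a, c, ha, hc, by rwa [← Set.ncard_eq_toFinset_card'], ?_⟩
  rintro ⟨X, h2, h3, h4⟩
  apply h1
  refine ⟨fun i => (X i : Set V), ?_, ?_, ?_⟩
  · intro i j hij
    obtain ⟨h5, h6⟩ := h2 i j hij
    refine ⟨Finset.disjoint_coe.2 h5, ?_⟩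
    rintro ⟨e, he⟩
    exact h6 ⟨e, mem_univ e, he⟩
  · intro i
    have h5 := h3 i
    rw [Set.disjoint_left]
    intro v hv hv'
    exact Finset.disjoint_left.1 h5 (Finset.mem_coe.1 hv) (Set.mem_toFinset.2 hv')
  · intro i
    show Odd (boundary s t (X i : Set V)) ∧ boundary s t (X i : Set V) ≤ 2 * c + 1
    rw [← bn_eq]
    exact h4 i

/-- A nowhere-zero flow, or a Petersen quotient in which all classes have flows. -/
def Dic (s t : E → V) : Prop :=
  NZ s t univ ∨ ∃ κ, IsPQ s t univ κ ∧ ∀ k, ∃ φ : E → F, Inn s t univ κ k φ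

theorem dic {s t : E → V} (h1 : N1 s t univ) (h : IndependentSmallCuts s t) : Dic s t := by
  obtain ⟨U, a, c, ha, hc, hU, h2⟩ := of_indep h
  rcases mainI s t univ h1 U a c ha hc hU h2 with h3 | ⟨κ, hκ⟩
  · exact Or.inl h3
  · exact Or.inr ⟨κ, hκ, fun k => sideI h1 U a c ha hc hU h2 hκ k⟩

theorem nz_or_pq {s t : E → V} (h1 : N1 s t univ) (h : IndependentSmallCuts s t) :
    NZ s t univ ∨ PQ s t univ := by
  rcases dic h1 h with h2 | ⟨κ, h2, -⟩
  · exact Or.inl h2
  · exact Or.inr ⟨κ, h2⟩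

/-- The condition holds with `c = 7` if every set of pairwise non-adjacent vertices of odd degree
outside `U` has at most `a` elements, where `4 a + |U| ≤ 21`. -/
theorem of_odd {s t : E → V} (U : Set V) (a : ℕ) (ha : 3 ≤ a) (hU : 4 * a + U.ncard ≤ 21)
    (h : ∀ I : Finset V, (∀ v ∈ I, v ∉ U ∧ Odd (deg s t univ v)) →
      (∀ v ∈ I, ∀ w ∈ I, v ≠ w → ¬ Adjacent s t {v} {w}) → I.card ≤ a) :
    IndependentSmallCuts s t := by
  classical
  refine ⟨U, a, 7, ha, by norm_num, by simpa using hU, ?_⟩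
  rintro ⟨X, h1, h2, h3⟩
  have h4 : ∀ i, ∃ v, v ∈ X i ∧ Odd (deg s t univ v) := by
    intro i
    have h5 := (h3 i).1
    have h6 : X i = ((X i).toFinset : Set V) := (Set.coe_toFinset _).symm
    rw [h6, ← bn_eq] at h5
    unfold bn at h5
    have h7 := Pool.Agent.TH362.TF.parity s t univ (fun v => decide (v ∈ (X i).toFinset))
    rw [Nat.odd_iff.1 h5] at h7
    obtain ⟨v, hv⟩ := Finset.card_pos.1 (by omega : 0 <
      ((odd s t univ).filter (fun v => decide (v ∈ (X i).toFinset) = true)).card)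
    rw [mem_filter] at hv
    have h8 : v ∈ (X i).toFinset := by simpa using hv.2
    exact ⟨v, Set.mem_toFinset.1 h8, (mem_filter.1 hv.1).2⟩
  choose v hv1 hv2 using h4
  have hinj : Function.Injective v := by
    intro i j hij
    by_contra hne
    have h5 := hv1 j
    rw [← hij] at h5
    exact Set.disjoint_left.1 (h1 i j hne).1 (hv1 i) h5
  have h5 := h (univ.image v) (by
    intro w hw
    obtain ⟨i, -, rfl⟩ := mem_image.1 hw
    exact ⟨fun hh => Set.disjoint_left.1 (h2 i) (hv1 i) hh, hv2 i⟩) (by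
    intro w hw w' hw' hne hadj
    obtain ⟨i, -, rfl⟩ := mem_image.1 hw
    obtain ⟨j, -, rfl⟩ := mem_image.1 hw'
    have hij : i ≠ j := fun hh => hne (by rw [hh])
    apply (h1 i j hij).2
    obtain ⟨e, he⟩ := hadj
    refine ⟨e, ?_⟩
    simp only [Set.mem_singleton_iff] at he
    rcases he with ⟨p, q⟩ | ⟨p, q⟩
    · exact Or.inl ⟨p ▸ hv1 i, q ▸ hv1 j⟩
    · exact Or.inr ⟨p ▸ hv1 j, q ▸ hv1 i⟩)
  rw [card_image_of_injective _ hinj, card_univ, Fintype.card_fin] at h5
  omega

end

end Pool.Agent.X186.IC
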