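import Pool.Agent.X186.IC.SF
import Pool.Agent.X186.IC.Defs
import Mathlib.Data.Fin.VecNotation

/-!
Degree sum conditions for independent sets of vertices.
-/

set_option autoImplicit false
set_option linter.unusedSectionVars false
set_option linter.unusedDecidableInType false
set_option linter.unusedFintypeInType false

namespace Pool.Agent.X186.IC

/-- The number of the vertices different from `v` that are joined to `v` by an edge. -/
noncomputable def neighbours {V E : Type} (s t : E → V) (v : V) : ℕ :=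
  {w | w ≠ v ∧ ∃ e, (s e = v ∧ t e = w) ∨ (s e = w ∧ t e = v)}.ncard

/-- For some `r ≤ 4` and some `σ > 9 (r + 1)` every `r + 1` pairwise non-adjacent vertices have
together at least `σ` neighbours (counted with multiplicity), and for the number `n` of vertices
`(r + 1) n < k (σ + r + 1)`, where `k = 17, 15, 12, 9, 5` for `r = 0, 1, 2, 3, 4`. -/
def LargeDegreeSums {V E : Type} (s t : E → V) : Prop :=
  ∃ (r : Fin 5) (σ : ℕ), 9 * (r.1 + 1) < σ ∧
    (r.1 + 1) * Nat.card V < (![17, 15, 12, 9, 5] : Fin 5 → ℕ) r * (σ + r.1 + 1) ∧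
    ∀ I : Finset V, I.card = r.1 + 1 →
      (∀ v ∈ I, ∀ w ∈ I, v ≠ w → ¬ Adjacent s t {v} {w}) → σ ≤ ∑ v ∈ I, neighbours s t v

open Finset Pool.Agent.TH362.TF Pool.Agent.X42.FlowH

theorem indep_small {ι : Type} [DecidableEq ι] {R : ι → ι → Prop} [DecidableRel R] (h : TF R)
    (hd : ∀ X : Finset ι, X.Nonempty → ∃ v ∈ X, (X.filter (R v)).card ≤ 3) (r : Fin 5)
    {X : Finset ι} (hX : 18 ≤ X.card + (![17, 15, 12, 9, 5] : Fin 5 → ℕ) r) :
    ∃ I ⊆ X, I.card = r.1 + 1 ∧ Ind R I := by
  match r, hX with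
  | 0, hX =>
    have h1 : 18 ≤ X.card + 17 := hX
    obtain ⟨v, hv⟩ := Finset.card_pos.1 (by omega : 0 < X.card)
    refine ⟨{v}, singleton_subset_iff.2 hv, card_singleton v, ?_⟩
    intro i hi j hj
    rw [mem_singleton] at hi hj
    rw [hi, hj]
    exact h.irr v
  | 1, hX =>
    have h1 : 18 ≤ X.card + 15 := hX
    exact two h (by omega)
  | 2, hX =>
    have h1 : 18 ≤ X.card + 12 := hX
    exact three h (by omega)
  | 3, hX =>
    have h1 : 18 ≤ X.card + 9 := hX
    exact four h (by omega)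
  | 4, hX =>
    have h1 : 18 ≤ X.card + 5 := hX
    exact many h (Z := X) (fun Y _ hY => hd Y hY) 1 X (Finset.Subset.refl X) (by omega)

theorem avg {ι : Type} [DecidableEq ι] (x : ι → ℕ) (q σ : ℕ) (n : ℕ) : ∀ B : Finset ι,
    B.card = n → q + 1 ≤ B.card → (∀ J ⊆ B, J.card = q + 1 → σ ≤ ∑ j ∈ J, x j) →
    B.card * σ ≤ (q + 1) * ∑ j ∈ B, x j := by
  induction n with
  | zero =>
    intro B h0 h1
    omega
  | succ n ih =>
    intro B hn h1 h2
    by_cases h3 : B.card = q + 1
    · rw [h3]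
      exact Nat.mul_le_mul_left _ (h2 B (Finset.Subset.refl B) h3)
    · obtain ⟨i, hi, hmax⟩ := Finset.exists_max_image B x (Finset.card_pos.1 (by omega))
      have h4 := card_erase_add_one hi
      have h5 := ih (B.erase i) (by omega) (by omega)
        (fun J hJ hc => h2 J (hJ.trans (erase_subset _ _)) hc)
      obtain ⟨J, hJ1, hJ2⟩ := Finset.exists_subset_card_eq h1
      have h6 : σ ≤ (q + 1) * x i := by
        refine (h2 J hJ1 hJ2).trans ?_
        rw [← hJ2, ← smul_eq_mul]
        exact Finset.sum_le_card_nsmul _ _ _ fun j hj => hmax j (hJ1 hj)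
      have h7 := Finset.add_sum_erase B x hi
      calc B.card * σ = (B.erase i).card * σ + σ := by rw [← h4]; ring
        _ ≤ (q + 1) * ∑ j ∈ B.erase i, x j + (q + 1) * x i := Nat.add_le_add h5 h6
        _ = (q + 1) * ∑ j ∈ B, x j := by rw [← h7]; ring

variable {V E : Type} [Fintype V] [DecidableEq V] [Fintype E] [DecidableEq E]

open Classical in
/-- the neighbours -/
noncomputable def NB (s t : E → V) (v : V) : Finset V :=
  univ.filter (fun w => w ≠ v ∧ ∃ e, (s e = v ∧ t e = w) ∨ (s e = w ∧ t e = v))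

theorem nb_card (s t : E → V) (v : V) : neighbours s t v = (NB s t v).card := by
  unfold neighbours NB
  rw [← Set.ncard_coe_finset]
  congr 1
  ext w
  simp only [coe_filter, mem_univ, true_and, Set.mem_ofPred_eq]

theorem mem_nb {s t : E → V} {v w : V} :
    w ∈ NB s t v ↔ w ≠ v ∧ ∃ e, (s e = v ∧ t e = w) ∨ (s e = w ∧ t e = v) := by
  unfold NB
  rw [mem_filter]
  exact ⟨fun h => h.2, fun h => ⟨mem_univ _, h⟩⟩

theorem out_le (s t : E → V) (X : Finset V) :
    ∑ v ∈ X, (NB s t v \ X).card ≤ bn s t univ X := by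
  classical
  set P : Finset (V × V) := X.biUnion (fun v => (NB s t v \ X).image (fun w => (v, w))) with hP
  have hPc : P.card = ∑ v ∈ X, (NB s t v \ X).card := by
    rw [hP, card_biUnion]
    · refine Finset.sum_congr rfl fun v _ => ?_
      rw [card_image_of_injective]
      intro a b hab
      exact (Prod.ext_iff.1 hab).2
    · intro a _ b _ hab
      show Disjoint _ _
      rw [Finset.disjoint_left]
      intro p hp hp'
      obtain ⟨w, _, rfl⟩ := mem_image.1 hp
      obtain ⟨w', _, h3⟩ := mem_image.1 hp'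
      exact hab (Prod.ext_iff.1 h3).1.symm
  have hPm : ∀ p ∈ P, p.1 ∈ X ∧ p.2 ∉ X ∧
      ∃ e, (s e = p.1 ∧ t e = p.2) ∨ (s e = p.2 ∧ t e = p.1) := by
    intro p hp
    rw [hP, mem_biUnion] at hp
    obtain ⟨v, hv, hp⟩ := hp
    obtain ⟨w, hw, rfl⟩ := mem_image.1 hp
    rw [mem_sdiff, mem_nb] at hw
    exact ⟨hv, hw.2, hw.1.2⟩
  rw [← hPc]
  have hch : ∀ p : {p // p ∈ P}, ∃ e, (s e = p.1.1 ∧ t e = p.1.2) ∨
      (s e = p.1.2 ∧ t e = p.1.1) := fun p => (hPm p.1 p.2).2.2
  choose g hg using hch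
  have h3 : (P.attach.image g) ⊆ cut s t univ (fun v => decide (v ∈ X)) := by
    intro e he
    obtain ⟨p, _, rfl⟩ := mem_image.1 he
    unfold cut
    refine mem_filter.2 ⟨mem_univ _, ?_⟩
    have h4 := (hPm p.1 p.2).1
    have h5 := (hPm p.1 p.2).2.1
    rcases hg p with ⟨h6, h7⟩ | ⟨h6, h7⟩
    · rw [h6, h7]; simp [h4, h5]
    · rw [h6, h7]; simp [h4, h5]
  have h4 := card_le_card h3
  rw [card_image_of_injective, card_attach] at h4
  · exact h4
  · intro p q hpq
    have h5 := hg p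
    have h6 := hg q
    rw [hpq] at h5
    have hp1 := (hPm p.1 p.2).1
    have hp2 := (hPm p.1 p.2).2.1
    have hq1 := (hPm q.1 q.2).1
    have hq2 := (hPm q.1 q.2).2.1
    apply Subtype.ext
    rcases h5 with ⟨a, b⟩ | ⟨a, b⟩ <;> rcases h6 with ⟨c, e⟩ | ⟨c, e⟩
    · exact Prod.ext (a.symm.trans c) (b.symm.trans e)
    · exact absurd ((a.symm.trans c) ▸ hp1) hq2
    · exact absurd ((b.symm.trans e) ▸ hp1) hq2
    · exact Prod.ext (b.symm.trans e) (a.symm.trans c)

/-- a set with few boundary edges contains a vertex with few neighbours, or a vertex all of whose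
neighbours are in the set -/
theorem dichotomy {s t : E → V} {X : Finset V} (hne : X.Nonempty) (hb : bn s t univ X ≤ 9) :
    (∃ v ∈ X, neighbours s t v ≤ 9) ∨ ∃ v ∈ X, NB s t v ⊆ X := by
  classical
  by_contra hcon
  push Not at hcon
  obtain ⟨h1, h2⟩ := hcon
  have h3 : ∀ v ∈ X, 1 ≤ (NB s t v \ X).card ∧ 11 ≤ X.card + (NB s t v \ X).card := by
    intro v hv
    constructor
    · rw [Nat.one_le_iff_ne_zero]
      intro h0
      rw [card_eq_zero, sdiff_eq_empty_iff_subset] at h0
      exact h2 v hv h0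
    · have h4 := h1 v hv
      rw [nb_card] at h4
      have h5 : (NB s t v ∩ X) ⊆ X.erase v := by
        intro w hw
        rw [mem_inter, mem_nb] at hw
        exact mem_erase.2 ⟨hw.1.1, hw.2⟩
      have h6 := card_le_card h5
      rw [card_erase_of_mem hv] at h6
      have h7 := card_sdiff_add_card_inter (NB s t v) X
      have h8 := Finset.card_pos.2 hne
      omega
  have h4 := out_le s t X
  have h5 := Finset.card_pos.2 hne
  by_cases h6 : 10 ≤ X.card
  · have h7 : ∑ v ∈ X, 1 ≤ ∑ v ∈ X, (NB s t v \ X).card :=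
      Finset.sum_le_sum fun v hv => (h3 v hv).1
    rw [Finset.sum_const, smul_eq_mul, mul_one] at h7
    omega
  · have h7 : ∑ v ∈ X, (11 - X.card) ≤ ∑ v ∈ X, (NB s t v \ X).card :=
      Finset.sum_le_sum fun v hv => by
        have := (h3 v hv).2
        omega
    rw [Finset.sum_const, smul_eq_mul] at h7
    have h8 : X.card < 10 := not_le.1 h6
    have h9 : 10 ≤ X.card * (11 - X.card) := by
      generalize X.card = x at h5 h8
      interval_cases x <;> norm_num
    omega

theorem not_adj {s t : E → V} {v w : V} (h : Adjacent s t {v} {w}) :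
    ∃ e, (s e = v ∧ t e = w) ∨ (s e = w ∧ t e = v) := by
  obtain ⟨e, he⟩ := h
  simp only [Set.mem_singleton_iff] at he
  exact ⟨e, he⟩

theorem no_sf {s t : E → V} (h : LargeDegreeSums s t) : ¬ HasSF s t univ := by
  classical
  obtain ⟨r, σ, h9, hn, hI⟩ := h
  rintro ⟨ι, i1, i2, X, h17, hX⟩
  set k := (![17, 15, 12, 9, 5] : Fin 5 → ℕ) r with hk
  have hkr : r.1 + 1 ≤ k :=
    (by decide : ∀ r : Fin 5, r.1 + 1 ≤ (![17, 15, 12, 9, 5] : Fin 5 → ℕ) r) r
  have hne : ∀ i, (X i).Nonempty := by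
    intro i
    by_contra hemp
    rw [Finset.not_nonempty_iff_eq_empty] at hemp
    have h4 := (hX.odd9 i).1
    rw [hemp] at h4
    unfold bn cut at h4
    simp at h4
  have hdi := fun i => dichotomy (hne i) (hX.odd9 i).2
  set A : Finset ι := univ.filter (fun i => ∃ v ∈ X i, neighbours s t v ≤ 9) with hA
  set B : Finset ι := univ.filter (fun i => ¬ ∃ v ∈ X i, neighbours s t v ≤ 9) with hB
  have hAB := Finset.card_filter_add_card_filter_not (s := (univ : Finset ι))
    (fun i => ∃ v ∈ X i, neighbours s t v ≤ 9)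
  rw [← hA, ← hB, card_univ] at hAB
  have hAk : A.card + k < 18 := by
    by_contra hcon
    obtain ⟨I, hI1, hI2, hI3⟩ := indep_small hX.tf hX.dg r (X := A) (not_lt.1 hcon)
    have hch : ∀ i : {i // i ∈ I}, ∃ v ∈ X i.1, neighbours s t v ≤ 9 := fun i =>
      (mem_filter.1 (hI1 i.2)).2
    choose u hu1 hu2 using hch
    have hinj : Function.Injective u := by
      intro i j hij
      apply Subtype.ext
      by_contra hne'
      have h5 := hu1 j
      rw [← hij] at h5
      exact Finset.disjoint_left.1 (hX.dis _ _ hne') (hu1 i) h5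
    have h5 := hI (univ.image u) (by
      rw [card_image_of_injective _ hinj, card_univ, Fintype.card_coe, hI2]) (by
      intro v hv w hw hvw hadj
      obtain ⟨i, -, rfl⟩ := mem_image.1 hv
      obtain ⟨j, -, rfl⟩ := mem_image.1 hw
      have hij : i.1 ≠ j.1 := fun hh => hvw (by rw [Subtype.ext hh])
      obtain ⟨e, he⟩ := not_adj hadj
      refine hI3 i.1 i.2 j.1 j.2 ⟨hij, e, mem_univ e, ?_⟩
      rcases he with ⟨p, q⟩ | ⟨p, q⟩
      · exact Or.inl ⟨p ▸ hu1 i, q ▸ hu1 j⟩
      · exact Or.inr ⟨p ▸ hu1 j, q ▸ hu1 i⟩)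
    rw [sum_image (fun i _ j _ hij => hinj hij)] at h5
    have h6 : ∑ i, neighbours s t (u i) ≤ ∑ i : {i // i ∈ I}, 9 :=
      Finset.sum_le_sum fun i _ => hu2 i
    rw [Finset.sum_const, card_univ, Fintype.card_coe, hI2, smul_eq_mul] at h6
    omega
  obtain ⟨B', hB1, hB2⟩ := Finset.exists_subset_card_eq (by omega : k ≤ B.card)
  have hch : ∀ i : ι, ∃ v : V, i ∈ B' → v ∈ X i ∧ NB s t v ⊆ X i := by
    intro i
    by_cases hi : i ∈ B'
    · rcases hdi i with h5 | ⟨v, h5, h6⟩
      · exact absurd h5 (mem_filter.1 (hB1 hi)).2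
      · exact ⟨v, fun _ => ⟨h5, h6⟩⟩
    · obtain ⟨v, _⟩ := hne i
      exact ⟨v, fun h5 => absurd h5 hi⟩
  choose v hv using hch
  have hinj : ∀ i ∈ B', ∀ j ∈ B', v i = v j → i = j := by
    intro i hi j hj hij
    by_contra hne'
    have h5 := (hv j hj).1
    rw [← hij] at h5
    exact Finset.disjoint_left.1 (hX.dis _ _ hne') (hv i hi).1 h5
  have hav := avg (fun i => neighbours s t (v i)) r.1 σ _ B' rfl (by omega) (by
    intro J hJ hJc
    have h5 := hI (J.image v) (by
      rw [card_image_of_injOn (fun i hi j hj hij => hinj i (hJ hi) j (hJ hj) hij), hJc]) (by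
      intro a ha b hb hab hadj
      obtain ⟨i, hi, rfl⟩ := mem_image.1 ha
      obtain ⟨j, hj, rfl⟩ := mem_image.1 hb
      have hij : i ≠ j := fun hh => hab (by rw [hh])
      have h6 : v j ∈ NB s t (v i) := mem_nb.2 ⟨Ne.symm hab, not_adj hadj⟩
      exact Finset.disjoint_left.1 (hX.dis i j hij) ((hv i (hJ hi)).2 h6) (hv j (hJ hj)).1)
    rw [sum_image (fun i hi j hj hij => hinj i (hJ hi) j (hJ hj) hij)] at h5
    exact h5)
  have hsz : ∀ i ∈ B', neighbours s t (v i) + 1 ≤ (X i).card := by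
    intro i hi
    rw [nb_card]
    have h5 : v i ∉ NB s t (v i) := fun hh => (mem_nb.1 hh).1 rfl
    rw [← card_insert_of_notMem h5]
    apply card_le_card
    intro w hw
    rcases mem_insert.1 hw with rfl | hw
    · exact (hv i hi).1
    · exact (hv i hi).2 hw
  have hs1 := Finset.sum_le_sum hsz
  rw [Finset.sum_add_distrib, Finset.sum_const, smul_eq_mul, mul_one] at hs1
  have hs2 : ∑ i ∈ B', (X i).card ≤ Fintype.card V := by
    rw [← card_biUnion (fun i _ j _ hij => hX.dis i j hij), ← card_univ]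
    exact card_le_card (subset_univ _)
  rw [Nat.card_eq_fintype_card] at hn
  rw [hB2] at hav hs1
  have h6 : (r.1 + 1) * (∑ i ∈ B', neighbours s t (v i) + k) ≤ (r.1 + 1) * Fintype.card V :=
    Nat.mul_le_mul_left _ (hs1.trans hs2)
  have h7 : (r.1 + 1) * (∑ i ∈ B', neighbours s t (v i) + k) =
      (r.1 + 1) * ∑ i ∈ B', neighbours s t (v i) + k * (r.1 + 1) := by ring
  have h8 : k * (σ + r.1 + 1) = k * σ + k * (r.1 + 1) := by ring
  omega

theorem dic_deg {s t : E → V} (h1 : N1 s t univ) (h : LargeDegreeSums s t) : Dic s t := by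
  have h2 := no_sf h
  rcases mainSF s t univ h1 h2 with h3 | ⟨κ, hκ⟩
  · exact Or.inl h3
  · exact Or.inr ⟨κ, hκ, fun k => sideSF h1 h2 hκ k⟩

end Pool.Agent.X186.IC
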