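import Pool.Agent.X42.HalfPet
import Pool.Agent.X186.IC.Defs

/-!
`1/2`-flow-pairs of bridgeless graphs with few independent small cuts.
(Adapted from `Pool/Agent/X42/HalfPet.lean`.)
-/

set_option autoImplicit false
set_option linter.unusedSectionVars false
set_option linter.unusedDecidableInType false
set_option linter.unusedFintypeInType false

namespace Pool.Agent.X186.IC

open Finset Pool.Agent.H160R2.HF Pool.Agent.H179R3.HF Pool.Agent.TH499.NF
open Pool.Agent.X42.HalfPet (lift n1_of pair_of_nz pet_pair)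

variable {V E : Type} [Fintype V] [DecidableEq V] [Fintype E] [DecidableEq E]

theorem half_main (G : OrGraph V E) (hb : ∀ X : Finset V, (G.cut X).card ≠ 1)
    (hD : Dic G.t G.h) : ∃ φ₂ φ₄ : E → ℤ, G.IsHalfFlowPair φ₂ φ₄ := by
  classical
  rcases hD with h | ⟨κ, hκ, hI⟩
  · exact pair_of_nz hb h
  have hne : ∀ k, ∃ v, κ v = k := by
    intro k
    have h1 := Pool.Agent.TH362.TF.pq_odd_pos hκ k
    obtain ⟨v, hv⟩ := Finset.card_pos.1 (by omega :
      0 < ((Pool.Agent.TH362.TF.odd G.t G.h univ).filter (fun v => κ v = k)).card)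
    exact ⟨v, (mem_filter.1 hv).2⟩
  choose a ha using hne
  refine lift G (fun x => a (κ x)) (fun x => by simp only [ha]) (fun y => ?_)
    (pet_pair G κ hκ a ha)
  by_cases hy : ∃ k, a k = y
  · right
    obtain ⟨k, rfl⟩ := hy
    have h1 : univ.filter (fun x => a (κ x) = a k) = univ.filter (fun x => κ x = k) := by
      refine filter_congr fun x _ => ?_
      constructor
      · intro h2
        rw [← ha (κ x), h2, ha]
      · intro h2
        rw [h2]
    rw [h1]
    have h3 : (G.cut (univ.filter (fun x => κ x = k))).card = 3 := by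
      rw [← hκ.1 k]
      congr 1
      unfold Pool.Agent.TH362.TF.cut OrGraph.cut
      refine filter_congr fun e _ => ?_
      simp only [mem_filter, mem_univ, true_and]
      by_cases h4 : κ (G.t e) = k <;> by_cases h5 : κ (G.h e) = k <;> simp [h4, h5]
    refine ⟨h3, ?_⟩
    obtain ⟨φ, hφ1, hφ2⟩ := hI k
    refine ⟨φ, fun x hx => ?_, fun e he => hφ1 e (mem_univ e) ?_⟩
    · rw [bd_eq]
      exact hφ2 x (mem_filter.1 hx).2
    · rcases he with he | he
      · exact Or.inl (mem_filter.1 he).2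
      · exact Or.inr (mem_filter.1 he).2
  · left
    intro x hx
    exact absurd ⟨_, hx⟩ hy

theorem half_final (G : OrGraph V E) (hb : ∀ X : Finset V, (G.cut X).card ≠ 1) (ρ : V → V)
    (hρ : ∀ x, ρ (ρ x) = ρ x)
    (hfib : ∀ y, (∀ x, ρ x = y → x = y) ∨
      ((G.cut (univ.filter (fun x => ρ x = y))).card = 3 ∧
        NZ4 (contr G (univ.filter (fun x => ρ x ≠ y)))))
    (ho : IndependentSmallCuts (mp G ρ).t (mp G ρ).h) :
    ∃ φ₂ φ₄ : E → ℤ, G.IsHalfFlowPair φ₂ φ₄ := by
  have hb' : ∀ X : Finset V, ((mp G ρ).cut X).card ≠ 1 := fun X => by rw [cut_mp]; exact hb _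
  refine lift G ρ hρ (fun y => ?_) (half_main (mp G ρ) hb' (dic (n1_of hb') ho))
  rcases hfib y with h | ⟨h1, h2⟩
  · exact Or.inl h
  · refine Or.inr ⟨h1, ?_⟩
    obtain ⟨f, h3, h4⟩ := col_of h2
    refine ⟨f, fun x hx => h3 x ?_, fun e he => h4 e ?_⟩
    · simpa using hx
    · simpa using he

end Pool.Agent.X186.IC
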