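import Pool.Agent.X186.IC.Short
import Pool.Agent.Results.MP_40718a_co.CoverClosure

/-!
The covers by six even subgraphs of the graphs of the class of `MP_40718a_co.CoverClosure` (helper24).
-/

set_option autoImplicit false

namespace Pool.Agent.X186.IC

open Finset
open Pool.Agent.Y425.BF6.Cor (Cyc Six)

section

variable {V E : Type} [Fintype V] [DecidableEq V] [Fintype E] [DecidableEq E]

theorem six_closure {s t : E → V}
    (h : Pool.Agent.Results.MP_40718a_co.CoverClosure.Closure s t) : Six s t := by
  classical
  obtain ⟨C, h1, h2⟩ := Pool.Agent.Results.MP_40718a_co.CoverClosure.result V E s t h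
  refine ⟨fun i => univ.filter (· ∈ C i), fun i v => ?_, fun e => ?_⟩
  · have h3 := h1 i v
    have h4 : ∀ r : E → V, {e | e ∈ C i ∧ r e = v}.ncard =
        ∑ e ∈ univ.filter (· ∈ C i), if r e = v then 1 else 0 := by
      intro r
      rw [← Finset.card_filter, Finset.filter_filter, ← Set.ncard_coe_finset]
      congr 1
      ext e
      simp
    rw [h4, h4, ← Finset.sum_add_distrib] at h3
    exact h3
  · rw [← h2 e, ← Set.ncard_coe_finset]
    congr 1
    ext i
    simp

end

end Pool.Agent.X186.IC
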