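import Mathlib.Data.Finset.Card
import Mathlib.Data.ZMod.Basic
import Mathlib.Algebra.BigOperators.Group.Finset.Basic
import Mathlib.Algebra.BigOperators.Ring.Finset
import Mathlib.Algebra.BigOperators.Group.Finset.Sigma
import Mathlib.Algebra.Order.BigOperators.Group.Finset
import Mathlib.Tactic.Linarith
import Mathlib.Tactic.Ring

/-!
Independent sets in triangle-free relations in which every nonempty set of vertices contains a
vertex with at most three neighbours in the set.
-/

set_option autoImplicit false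
set_option linter.unusedSectionVars false
set_option linter.unusedDecidableInType false
set_option linter.unusedFintypeInType false

namespace Pool.Agent.X186.IC

open Finset

section
variable {ι : Type} [DecidableEq ι]

/-- No two elements of `I` are related. -/
def Ind (R : ι → ι → Prop) (I : Finset ι) : Prop := ∀ i ∈ I, ∀ j ∈ I, ¬ R i j

/-- A symmetric irreflexive relation without triangles. -/
structure TF (R : ι → ι → Prop) : Prop where
  symm : ∀ i j, R i j → R j i
  irr : ∀ i, ¬ R i i
  tri : ∀ i j k, R i j → R j k → R i k → False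

theorem ind_insert {R : ι → ι → Prop} (h : TF R) {I : Finset ι} {v : ι} (hI : Ind R I)
    (hv : ∀ w ∈ I, ¬ R v w) : Ind R (insert v I) := by
  intro i hi j hj hij
  rcases Finset.mem_insert.1 hi with hi1 | hi1
  · rcases Finset.mem_insert.1 hj with hj1 | hj1
    · rw [hi1, hj1] at hij
      exact h.irr _ hij
    · rw [hi1] at hij
      exact hv _ hj1 hij
  · rcases Finset.mem_insert.1 hj with hj1 | hj1
    · rw [hj1] at hij
      exact hv _ hi1 (h.symm _ _ hij)
    · exact hI _ hi1 _ hj1 hij

theorem ind_nb {R : ι → ι → Prop} [DecidableRel R] (h : TF R) (X : Finset ι) (v : ι) :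
    Ind R (X.filter (R v)) := by
  intro i hi j hj hij
  exact h.tri v i j (mem_filter.1 hi).2 hij (mem_filter.1 hj).2

/-- an independent set of non-neighbours is extended -/
theorem extend {R : ι → ι → Prop} [DecidableRel R] (h : TF R) {X : Finset ι} {v : ι} (hv : v ∈ X)
    {a : ℕ} (hI : ∃ I ⊆ (X.erase v).filter (fun w => ¬ R v w), I.card = a ∧ Ind R I) :
    ∃ I ⊆ X, I.card = a + 1 ∧ Ind R I := by
  obtain ⟨I, h1, h2, h3⟩ := hI
  refine ⟨insert v I, ?_, ?_, ind_insert h h3 ?_⟩
  · intro w hw
    rcases Finset.mem_insert.1 hw with rfl | hw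
    · exact hv
    · exact (mem_erase.1 (mem_filter.1 (h1 hw)).1).2
  · rw [card_insert_of_notMem, h2]
    intro hv'
    exact (mem_erase.1 (mem_filter.1 (h1 hv')).1).1 rfl
  · intro w hw
    exact (mem_filter.1 (h1 hw)).2

theorem split {R : ι → ι → Prop} [DecidableRel R] (h : TF R) {X : Finset ι} {v : ι} (hv : v ∈ X) :
    (X.filter (R v)).card + ((X.erase v).filter (fun w => ¬ R v w)).card + 1 = X.card := by
  have h1 : (X.erase v).filter (R v) = X.filter (R v) := by
    ext w
    simp only [mem_filter, mem_erase]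
    constructor
    · rintro ⟨⟨_, h2⟩, h3⟩
      exact ⟨h2, h3⟩
    · rintro ⟨h2, h3⟩
      refine ⟨⟨?_, h2⟩, h3⟩
      rintro rfl
      exact h.irr _ h3
  have h2 := Finset.card_filter_add_card_filter_not (s := X.erase v) (fun w => R v w)
  have h3 := card_erase_add_one hv
  rw [h1] at h2
  omega

theorem two {R : ι → ι → Prop} [DecidableRel R] (h : TF R) {X : Finset ι} (hX : 3 ≤ X.card) :
    ∃ I ⊆ X, I.card = 2 ∧ Ind R I := by
  obtain ⟨p, hp, q, hq, r, hr, hpq, hpr, hqr⟩ := Finset.two_lt_card.1 (by omega : 2 < X.card)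
  have key : ∀ p q : ι, p ∈ X → q ∈ X → p ≠ q → ¬ R p q → ∃ I ⊆ X, I.card = 2 ∧ Ind R I := by
    intro p q hp hq hpq hR
    refine ⟨{p, q}, ?_, card_pair hpq, ?_⟩
    · intro w hw
      simp only [mem_insert, mem_singleton] at hw
      rcases hw with rfl | rfl
      · exact hp
      · exact hq
    · intro i hi j hj hij
      simp only [mem_insert, mem_singleton] at hi hj
      rcases hi with rfl | rfl <;> rcases hj with rfl | rfl
      · exact h.irr _ hij
      · exact hR hij
      · exact hR (h.symm _ _ hij)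
      · exact h.irr _ hij
  by_cases h1 : R p q
  · by_cases h2 : R q r
    · by_cases h3 : R p r
      · exact (h.tri _ _ _ h1 h2 h3).elim
      · exact key p r hp hr hpr h3
    · exact key q r hq hr hqr h2
  · exact key p q hp hq hpq h1

theorem three {R : ι → ι → Prop} [DecidableRel R] (h : TF R) {X : Finset ι} (hX : 6 ≤ X.card) :
    ∃ I ⊆ X, I.card = 3 ∧ Ind R I := by
  obtain ⟨v, hv⟩ := Finset.card_pos.1 (by omega : 0 < X.card)
  have h1 := split h hv
  by_cases h2 : 3 ≤ (X.filter (R v)).card
  · obtain ⟨I, h3, h4⟩ := Finset.exists_subset_card_eq h2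
    exact ⟨I, h3.trans (filter_subset _ _), h4, fun i hi j hj => ind_nb h X v i (h3 hi) j (h3 hj)⟩
  · exact extend h hv (two h (by omega))

theorem parity {R : ι → ι → Prop} [DecidableRel R] (h : TF R) (X : Finset ι) :
    Even (∑ v ∈ X, (X.filter (R v)).card) := by
  have h1 : ((∑ v ∈ X, (X.filter (R v)).card : ℕ) : ZMod 2) = 0 := by
    have h2 : ∑ v ∈ X, (X.filter (R v)).card =
        ∑ p ∈ X ×ˢ X, (if R p.1 p.2 then 1 else 0) := by
      rw [Finset.sum_product]
      refine Finset.sum_congr rfl fun v _ => ?_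
      rw [Finset.card_filter]
    rw [h2, Nat.cast_sum]
    refine Finset.sum_involution (fun p _ => (p.2, p.1)) ?_ ?_ ?_ ?_
    · intro p _
      by_cases h3 : R p.1 p.2
      · have h4 : R p.2 p.1 := h.symm _ _ h3
        simp only [h3, h4, if_true, Nat.cast_one]
        exact CharTwo.add_self_eq_zero _
      · have h4 : ¬ R p.2 p.1 := fun h5 => h3 (h.symm _ _ h5)
        simp only [h3, h4, if_false, Nat.cast_zero, add_zero]
    · intro p _ hp heq
      apply hp
      have h5 : p.2 = p.1 := congrArg Prod.fst heq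
      have h4 : ¬ R p.1 p.2 := by
        rw [h5]
        exact h.irr _
      simp only [h4, if_false, Nat.cast_zero]
    · intro p hp
      rw [mem_product] at hp ⊢
      exact ⟨hp.2, hp.1⟩
    · intro p _
      rfl
  rw [ZMod.natCast_eq_zero_iff] at h1
  exact (even_iff_two_dvd).2 h1

theorem four {R : ι → ι → Prop} [DecidableRel R] (h : TF R) {X : Finset ι} (hX : 9 ≤ X.card) :
    ∃ I ⊆ X, I.card = 4 ∧ Ind R I := by
  obtain ⟨Y, hY1, hY2⟩ := Finset.exists_subset_card_eq hX
  by_contra hcon
  have hcon' : ¬ ∃ I ⊆ Y, I.card = 4 ∧ Ind R I := by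
    rintro ⟨I, h1, h2⟩
    exact hcon ⟨I, h1.trans hY1, h2⟩
  have h3 : ∀ v ∈ Y, (Y.filter (R v)).card = 3 := by
    intro v hv
    have h1 := split h hv
    have h4 : ¬ 4 ≤ (Y.filter (R v)).card := by
      intro h2
      obtain ⟨I, h3, h4⟩ := Finset.exists_subset_card_eq h2
      exact hcon' ⟨I, h3.trans (filter_subset _ _), h4,
        fun i hi j hj => ind_nb h Y v i (h3 hi) j (h3 hj)⟩
    have h5 : ¬ 6 ≤ ((Y.erase v).filter (fun w => ¬ R v w)).card := by
      intro h2
      exact hcon' (extend h hv (three h h2))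
    omega
  have h6 := parity h Y
  rw [Finset.sum_congr rfl h3, Finset.sum_const, hY2] at h6
  exact absurd h6 (by decide)

/-- **Independent sets.** -/
theorem many {R : ι → ι → Prop} [DecidableRel R] (h : TF R) {Z : Finset ι}
    (hd : ∀ X : Finset ι, X ⊆ Z → X.Nonempty → ∃ v ∈ X, (X.filter (R v)).card ≤ 3) (a : ℕ) :
    ∀ X : Finset ι, X ⊆ Z → 4 * (a + 3) ≤ X.card + 3 → ∃ I ⊆ X, I.card = a + 4 ∧ Ind R I := by
  induction a with
  | zero =>
    intro X _ hX
    exact four h (by omega)
  | succ a ih =>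
    intro X hXZ hX
    obtain ⟨v, hv, hv3⟩ := hd X hXZ (Finset.card_pos.1 (by omega))
    have h1 := split h hv
    have h2 := extend h hv (ih ((X.erase v).filter (fun w => ¬ R v w)) (by
      intro w hw
      exact hXZ (mem_erase.1 (mem_filter.1 hw).1).2) (by omega))
    exact h2

end

end Pool.Agent.X186.IC
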