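import Pool.Agent.X186.IC.Min

/-!
A bridgeless multigraph without a family of pairwise disjoint and pairwise non-adjacent vertex sets
with few boundary edges has a nowhere-zero flow or a Petersen quotient all of whose classes have
flows.
-/

set_option autoImplicit false
set_option linter.unusedSectionVars false
set_option linter.unusedDecidableInType false
set_option linter.unusedFintypeInType false

namespace Pool.Agent.X186.IC

open Finset Pool.Agent.TH362.TF Pool.Agent.TH362.TF.Red
open Pool.Agent.TH362.TP (MinQ ins)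
open Pool.Agent.X42.FlowQ Pool.Agent.X42.FlowSp Pool.Agent.X42.FlowH

variable {V E : Type} [Fintype V] [DecidableEq V] [DecidableEq E]

/-- There is an edge with one end in `X` and the other in `Y`. -/
def Adj (s t : E → V) (S : Finset E) (X Y : Finset V) : Prop :=
  ∃ e ∈ S, (s e ∈ X ∧ t e ∈ Y) ∨ (s e ∈ Y ∧ t e ∈ X)

/-- There are `a + 1` pairwise disjoint and pairwise non-adjacent vertex sets disjoint from `U`,
each with an odd number of boundary edges that is at most `b`. -/
def Fam (s t : E → V) (S : Finset E) (U : Finset V) (a b : ℕ) : Prop :=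
  ∃ X : Fin (a + 1) → Finset V, (∀ i j, i ≠ j → Disjoint (X i) (X j) ∧ ¬ Adj s t S (X i) (X j)) ∧
    (∀ i, Disjoint (X i) U) ∧ ∀ i, Odd (bn s t S (X i)) ∧ bn s t S (X i) ≤ b

theorem fam_of {s t : E → V} {S : Finset E} {U : Finset V} {a b : ℕ} {ι : Type} [DecidableEq ι]
    (I : Finset ι) (X : ι → Finset V) (hI : I.card = a + 1)
    (h1 : ∀ i ∈ I, ∀ j ∈ I, i ≠ j → Disjoint (X i) (X j) ∧ ¬ Adj s t S (X i) (X j))
    (h2 : ∀ i ∈ I, Disjoint (X i) U)
    (h3 : ∀ i ∈ I, Odd (bn s t S (X i)) ∧ bn s t S (X i) ≤ b) : Fam s t S U a b := by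
  let eqv := (Finset.equivFinOfCardEq hI).symm
  refine ⟨fun i => X (eqv i).1, ?_, fun i => h2 _ (eqv i).2, fun i => h3 _ (eqv i).2⟩
  intro i j hij
  exact h1 _ (eqv i).2 _ (eqv j).2 (fun hh => hij (eqv.injective (Subtype.ext hh)))

theorem quot_fam {s t : E → V} {S S' : Finset E} {f : V → V} (hS : S' ⊆ S)
    (hf : ∀ e ∈ S, e ∉ S' → f (s e) = f (t e)) {U : Finset V} {a b : ℕ}
    (h : Fam (fun e => f (s e)) (fun e => f (t e)) S' (U.image f) a b) : Fam s t S U a b := by
  obtain ⟨X, h1, h2, h3⟩ := h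
  refine ⟨fun i => univ.filter (fun v => f v ∈ X i), ?_, ?_, ?_⟩
  · intro i j hij
    obtain ⟨h4, h5⟩ := h1 i j hij
    refine ⟨?_, ?_⟩
    · rw [Finset.disjoint_left]
      intro v hv hv'
      simp only [mem_filter, mem_univ, true_and] at hv hv'
      exact Finset.disjoint_left.1 h4 hv hv'
    · rintro ⟨e, he, h6⟩
      simp only [mem_filter, mem_univ, true_and] at h6
      have h7 : e ∈ S' := by
        by_contra hcon
        have h8 := hf e he hcon
        rcases h6 with ⟨p, q⟩ | ⟨p, q⟩
        · exact Finset.disjoint_left.1 h4 p (h8 ▸ q)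
        · exact Finset.disjoint_left.1 h4 q (h8 ▸ p)
      exact h5 ⟨e, h7, h6⟩
  · intro i
    rw [Finset.disjoint_left]
    intro v hv hv'
    simp only [mem_filter, mem_univ, true_and] at hv
    exact Finset.disjoint_left.1 (h2 i) hv (mem_image_of_mem f hv')
  · intro i
    show Odd (bn s t S (univ.filter (fun v => f v ∈ X i))) ∧
      bn s t S (univ.filter (fun v => f v ∈ X i)) ≤ b
    rw [← bn_quot hS hf]
    exact h3 i

/-- A minimal quotient has many vertices of small odd degree. -/
theorem min_small {s t : E → V} {S : Finset E} (h : MinQ s t S) (ho : 16 < (odd s t S).card)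
    {c : ℕ} (hc : 1 ≤ c) :
    18 ≤ ((odd s t S).filter (fun v => deg s t S v ≤ 2 * c + 1)).card + 6 / c := by
  have hev : (odd s t S).card % 2 = 0 := by
    have h1 := Pool.Agent.TH362.TF.parity s t S (fun _ => true)
    simp only [filter_true] at h1
    have h2 : cut s t S (fun _ => true) = ∅ := by
      unfold cut
      rw [Finset.filter_eq_empty_iff]
      intro e _ hh
      exact hh rfl
    rw [h2, card_empty] at h1
    simpa using h1
  have h18 : 18 ≤ (odd s t S).card := by omega
  have hsum : ∑ v ∈ odd s t S, deg s t S v + 6 ≤ 4 * (odd s t S).card := by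
    have h2 := sparse_deg h
    have h3 : odd s t S ⊆ univ.filter (fun v => deg s t S v ≠ 0) := by
      intro v hv
      refine mem_filter.2 ⟨mem_univ _, fun h0 => ?_⟩
      have h5 := (mem_filter.1 hv).2
      rw [h0] at h5
      exact absurd h5 (by decide)
    have h4 : ∑ v, deg s t S v = ∑ v ∈ univ.filter (fun v => deg s t S v ≠ 0), deg s t S v := by
      symm
      apply Finset.sum_subset (Finset.subset_univ _)
      intro v _ hv
      by_contra hne
      exact hv (mem_filter.2 ⟨mem_univ _, hne⟩)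
    have h5 := Finset.sum_sdiff (f := fun v => deg s t S v) h3
    have h6 : ∑ v ∈ univ.filter (fun v => deg s t S v ≠ 0) \ odd s t S, 4 ≤
        ∑ v ∈ univ.filter (fun v => deg s t S v ≠ 0) \ odd s t S, deg s t S v := by
      apply Finset.sum_le_sum
      intro v hv
      rw [mem_sdiff, mem_filter] at hv
      have h7 : ¬ Odd (deg s t S v) := fun h8 => hv.2 (mem_filter.2 ⟨mem_univ _, h8⟩)
      have h8 := deg_ge h v
      have h9 : deg s t S v ≠ 3 := fun h10 => h7 (by rw [h10]; decide)
      have h10 := hv.1.2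
      omega
    rw [Finset.sum_const, smul_eq_mul, card_sdiff_of_subset h3] at h6
    have h7 := card_le_card h3
    rw [h4] at h2
    omega
  set P := (odd s t S).filter (fun v => deg s t S v ≤ 2 * c + 1) with hP
  set Q := (odd s t S).filter (fun v => ¬ deg s t S v ≤ 2 * c + 1) with hQ
  have hPQ := Finset.card_filter_add_card_filter_not (s := odd s t S)
    (fun v => deg s t S v ≤ 2 * c + 1)
  have hPQs := Finset.sum_filter_add_sum_filter_not (odd s t S)
    (fun v => deg s t S v ≤ 2 * c + 1) (fun v => deg s t S v)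
  rw [← hP, ← hQ] at hPQ hPQs
  have h7 : ∑ v ∈ P, 3 ≤ ∑ v ∈ P, deg s t S v := by
    refine Finset.sum_le_sum fun v hv => ?_
    have h8 := deg_ge h v
    have h9 : deg s t S v ≠ 0 := by
      intro h0
      have h5 := (mem_filter.1 (mem_filter.1 hv).1).2
      rw [h0] at h5
      exact absurd h5 (by decide)
    omega
  have h8 : ∑ v ∈ Q, (2 * c + 3) ≤ ∑ v ∈ Q, deg s t S v := by
    refine Finset.sum_le_sum fun v hv => ?_
    have h5 := (mem_filter.1 (mem_filter.1 hv).1).2
    have h6 := (mem_filter.1 hv).2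
    rcases h5 with ⟨k, hk⟩
    omega
  rw [Finset.sum_const, smul_eq_mul] at h7 h8
  have h9 : 6 < c * (6 / c + 1) := by
    have h10 := Nat.lt_mul_div_succ 6 (by omega : 0 < c)
    exact h10
  by_contra hcon
  obtain ⟨r, hr⟩ : ∃ r, (odd s t S).card = 18 + r := ⟨(odd s t S).card - 18, by omega⟩
  have h10 : r + (6 / c + 1) ≤ Q.card := by omega
  have h11 : 2 * c * (r + (6 / c + 1)) ≤ 2 * c * Q.card := Nat.mul_le_mul_left _ h10
  have h12 : Q.card * (2 * c + 3) = 2 * c * Q.card + 3 * Q.card := by ring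
  have h13 : 2 * c * (r + (6 / c + 1)) = 2 * (c * r) + 2 * (c * (6 / c + 1)) := by ring
  have h14 : r ≤ c * r := Nat.le_mul_of_pos_left r (by omega)
  omega

theorem card_off (P U : Finset V) : P.card ≤ (P.filter (fun v => v ∉ U)).card + U.card := by
  have h1 := Finset.card_filter_add_card_filter_not (s := P) (fun v => v ∈ U)
  have h2 : P.filter (fun v => v ∈ U) ⊆ U := fun v hv => (mem_filter.1 hv).2
  have h3 := card_le_card h2
  omega

/-- A minimal quotient contains such a family. -/
theorem min_fam {s t : E → V} {S : Finset E} (h : MinQ s t S) (ho : 16 < (odd s t S).card)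
    {U : Finset V} {a c : ℕ} (ha : 3 ≤ a) (hc : 1 ≤ c) (hU : 4 * a + U.card + 6 / c ≤ 21) :
    Fam s t S U a (2 * c + 1) := by
  classical
  have h1 := min_small h ho hc
  set P := (odd s t S).filter (fun v => deg s t S v ≤ 2 * c + 1) with hP
  have h2 := card_off P U
  obtain ⟨I, hI1, hI2, hI3⟩ := many (vr_tf h) (Z := univ)
    (fun X _ hX => degen h X hX) (a - 3) (P.filter (fun v => v ∉ U)) (subset_univ _) (by omega)
  refine fam_of I (fun v => {v}) (by omega) ?_ ?_ ?_
  · intro v hv w hw hvw
    refine ⟨by rw [Finset.disjoint_singleton]; exact hvw, ?_⟩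
    rintro ⟨e, he, h3⟩
    simp only [mem_singleton] at h3
    exact hI3 v hv w hw ⟨e, he, h3⟩
  · intro v hv
    rw [Finset.disjoint_singleton_left]
    exact (mem_filter.1 (hI1 hv)).2
  · intro v hv
    rw [bn_single (noloop h)]
    have h3 := (mem_filter.1 (mem_filter.1 (hI1 hv)).1)
    exact ⟨(mem_filter.1 h3.1).2, h3.2⟩

/-- **The core theorem.** -/
theorem mainI (s t : E → V) (S : Finset E) (h1 : N1 s t S) (U : Finset V) (a c : ℕ)
    (ha : 3 ≤ a) (hc : 1 ≤ c) (hU : 4 * a + U.card + 6 / c ≤ 21)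
    (h2 : ¬ Fam s t S U a (2 * c + 1)) : NZ s t S ∨ PQ s t S := by
  by_contra hcon
  push Not at hcon
  obtain ⟨f, S', hS, hf, hm⟩ := exists_min h1 hcon.1
  have h3 : 16 < (odd (fun e => f (s e)) (fun e => f (t e)) S').card := by
    by_contra h4
    rcases main16 _ _ _ hm.n1 (not_lt.1 h4) with h5 | h5
    · exact hm.nz h5
    · exact hcon.2 (quot_pq hS hf h5)
  have h4 : (U.image f).card ≤ U.card := card_image_le
  exact h2 (quot_fam hS hf (min_fam hm h3 ha hc (by omega)))

end Pool.Agent.X186.IC
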