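import Pool.Agent.X42.FewCover
import Pool.Agent.X186.IC.Defs

/-!
Six even subgraphs with every edge in exactly four of them.
(Adapted from `Pool/Agent/X42/FewCover.lean`.)
-/

set_option autoImplicit false
set_option linter.unusedSectionVars false
set_option linter.unusedDecidableInType false
set_option linter.unusedFintypeInType false

namespace Pool.Agent.X186.IC.CV

open Finset Pool.Agent.TH362.TF Pool.Agent.TH362.TF.Red
open Pool.Agent.X42.FlowH Pool.Agent.X42.FewCover
open Pool.Agent.TH362.TF.Contr (nb_inj nb_ne padj_nb struct)
open Pool.Agent.TH362.TF.Str (joins_other)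

variable {V E : Type} [Fintype V] [DecidableEq V] [Fintype E] [DecidableEq E]

theorem cover {s t : E → V} (hD : Dic s t) :
    ∃ g : Fin 6 → E → ZMod 2,
      (∀ i v, ∑ e, ((if s e = v then g i e else 0) + (if t e = v then g i e else 0)) = 0) ∧
      ∀ e, (univ.filter (fun i => g i e = 1)).card = 4 := by
  classical
  have htm : ∀ (c : F) (φ : E → F) (v : V), Cons s t univ φ v →
      ∑ e, ((if s e = v then lam c (φ e) else 0) + (if t e = v then lam c (φ e) else 0)) = 0 := by
    intro c φ v hv
    have h3 : ∑ e, ((if s e = v then lam c (φ e) else 0) + (if t e = v then lam c (φ e) else 0)) =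
        lam c (∑ e, ((if s e = v then φ e else 0) + (if t e = v then φ e else 0))) := by
      rw [map_sum]
      refine Finset.sum_congr rfl fun e _ => ?_
      rw [map_add]
      congr 1
      · split_ifs
        · rfl
        · rw [map_zero]
      · split_ifs
        · rfl
        · rw [map_zero]
    have h4 : ∑ e, ((if s e = v then φ e else 0) + (if t e = v then φ e else 0)) = 0 := hv
    rw [h3, h4, map_zero]
  rcases hD with ⟨φ, hφ1, hφ2⟩ | ⟨κ, hκ, hφ'⟩
  · exact ⟨fun i e => lam (av i) (φ e), fun i v => htm (av i) φ v (hφ2 v),
      fun e => lam_count _ (hφ1 e (mem_univ e))⟩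
  · choose φ hφ using hφ'
    choose ee he1 he2 using fun k => struct s t κ hκ k
    have hyn : ∀ k j, φ k (ee k j) ≠ 0 := by
      intro k j
      refine (hφ k).1 _ (mem_univ _) ?_
      rcases he1 k j with ⟨a, _⟩ | ⟨_, b⟩
      · exact Or.inl a
      · exact Or.inr b
    have hys : ∀ k, φ k (ee k 0) + φ k (ee k 1) + φ k (ee k 2) = 0 := fun k =>
      class_sum hκ k (ee k) (he1 k) (hφ k).2
    set g : Fin 6 → E → ZMod 2 := fun i x => if κ (s x) = κ (t x) then
      lam (φ (κ (s x)) (ee (κ (s x)) (idx i (κ (s x))))) (φ (κ (s x)) x) else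
      (if mate i (κ (s x)) = κ (t x) then 0 else 1) with hg
    have key : ∀ (i : Fin 6) (k : Fin 10) (x : E), κ (s x) = k ∨ κ (t x) = k →
        g i x = lam (φ k (ee k (idx i k))) (φ k x) := by
      intro i k x hx
      by_cases hin : κ (s x) = κ (t x)
      · have h3 : κ (s x) = k := by
          rcases hx with hx | hx
          · exact hx
          · rw [hin]; exact hx
        rw [hg]
        simp only [if_pos hin]
        rw [h3]
      · have h3 : ¬ (κ (s x) = k ↔ κ (t x) = k) := by
          intro hh
          rcases hx with hx | hx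
          · exact hin (hx.trans (hh.1 hx).symm)
          · exact hin ((hh.2 hx).trans hx.symm)
        obtain ⟨j, rfl⟩ := he2 k x h3
        obtain ⟨h4, -⟩ := lam_fact (fun j => φ k (ee k j)) (hyn k) (hys k)
        have h5 := h4 (idx i k) j
        rw [h5, hg]
        simp only [if_neg hin]
        have h6 : (mate i (κ (s (ee k j))) = κ (t (ee k j))) ↔ idx i k = j := by
          rcases he1 k j with ⟨a, b⟩ | ⟨a, b⟩
          · rw [a, b]
            unfold mate
            exact ⟨fun hh => nb_inj k _ _ hh, fun hh => by rw [hh]⟩
          · rw [a, b]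
            constructor
            · intro hh
              have h7 : mate i (mate i (nb k j)) = mate i k := congrArg _ hh
              rw [mate_mate] at h7
              exact (nb_inj k _ _ h7).symm
            · intro hh
              have h7 : nb k j = mate i k := by unfold mate; rw [hh]
              rw [h7, mate_mate]
        simp only [h6]
    refine ⟨g, fun i v => ?_, fun x => ?_⟩
    · refine Eq.trans ?_ (htm (φ (κ v) (ee (κ v) (idx i (κ v)))) (φ (κ v)) v ((hφ (κ v)).2 v rfl))
      refine Finset.sum_congr rfl fun e _ => ?_
      congr 1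
      · by_cases h3 : s e = v
        · rw [if_pos h3, if_pos h3]
          exact key i (κ v) e (Or.inl (by rw [h3]))
        · rw [if_neg h3, if_neg h3]
      · by_cases h3 : t e = v
        · rw [if_pos h3, if_pos h3]
          exact key i (κ v) e (Or.inr (by rw [h3]))
        · rw [if_neg h3, if_neg h3]
    · have h3 : univ.filter (fun i => g i x = 1) = univ.filter (fun i : Fin 6 =>
          lam ((fun j => φ (κ (s x)) (ee (κ (s x)) j)) (idx i (κ (s x)))) (φ (κ (s x)) x) = 1) := by
        refine Finset.filter_congr fun i _ => ?_
        rw [key i (κ (s x)) x (Or.inl rfl)]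
      rw [h3]
      exact lam_count2 _ _ (hyn _) (hys _) _ ((hφ (κ (s x))).1 x (mem_univ _) (Or.inl rfl))

end Pool.Agent.X186.IC.CV
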