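import Pool.Agent.X186.IC.Half
import Pool.Agent.X186.IC.DegSum

/-!
`1/2`-flow-pairs of bridgeless graphs with few light small odd cuts or large degree sums.
-/

set_option autoImplicit false
set_option linter.unusedSectionVars false
set_option linter.unusedDecidableInType false
set_option linter.unusedFintypeInType false

namespace Pool.Agent.X186.IC

open Finset Pool.Agent.H160R2.HF Pool.Agent.H179R3.HF Pool.Agent.TH499.NF
open Pool.Agent.X42.HalfPet (lift n1_of)
open Pool.Agent.X42.FewCuts (NoLightFamily not_bad)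
open Pool.Agent.X42.FlowH (mainB sideInn)

variable {V E : Type} [Fintype V] [DecidableEq V] [Fintype E] [DecidableEq E]

theorem dic_light {s t : E → V} (h1 : Pool.Agent.TH362.TF.N1 s t univ)
    (h : NoLightFamily s t ∨ LargeDegreeSums s t) : Dic s t := by
  rcases h with h | h
  · have h2 := not_bad h1 (Or.inl h)
    rcases mainB s t univ h1 h2 with h3 | ⟨κ, hκ⟩
    · exact Or.inl h3
    · exact Or.inr ⟨κ, hκ, fun k => sideInn h1 h2 hκ k⟩
  · exact dic_deg h1 h

theorem half_final2 (G : OrGraph V E) (hb : ∀ X : Finset V, (G.cut X).card ≠ 1) (ρ : V → V)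
    (hρ : ∀ x, ρ (ρ x) = ρ x)
    (hfib : ∀ y, (∀ x, ρ x = y → x = y) ∨
      ((G.cut (univ.filter (fun x => ρ x = y))).card = 3 ∧
        NZ4 (contr G (univ.filter (fun x => ρ x ≠ y)))))
    (ho : NoLightFamily (mp G ρ).t (mp G ρ).h ∨ LargeDegreeSums (mp G ρ).t (mp G ρ).h) :
    ∃ φ₂ φ₄ : E → ℤ, G.IsHalfFlowPair φ₂ φ₄ := by
  have hb' : ∀ X : Finset V, ((mp G ρ).cut X).card ≠ 1 := fun X => by rw [cut_mp]; exact hb _
  refine lift G ρ hρ (fun y => ?_) (half_main (mp G ρ) hb' (dic_light (n1_of hb') ho))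
  rcases hfib y with h | ⟨h1, h2⟩
  · exact Or.inl h
  · refine Or.inr ⟨h1, ?_⟩
    obtain ⟨f, h3, h4⟩ := col_of h2
    refine ⟨f, fun x hx => h3 x ?_, fun e he => h4 e ?_⟩
    · simpa using hx
    · simpa using he

end Pool.Agent.X186.IC
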