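import Pool.Agent.X42.FlowH
import Pool.Agent.X186.IC.Comb

/-!
The minimal quotients without nowhere-zero flow have no triangles, and each of their nonempty sets
of vertices contains a vertex with at most three neighbours in the set.
-/

set_option autoImplicit false
set_option linter.unusedSectionVars false
set_option linter.unusedDecidableInType false
set_option linter.unusedFintypeInType false

namespace Pool.Agent.X186.IC

open Finset Pool.Agent.TH362.TF Pool.Agent.TH362.TF.Red
open Pool.Agent.TH362.TP (MinQ ins)
open Pool.Agent.X42.FlowQ Pool.Agent.X42.FlowSp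

variable {V E : Type} [Fintype V] [DecidableEq V] [DecidableEq E]

/-- There is an edge between `v` and `w`. -/
def VR (s t : E → V) (S : Finset E) (v w : V) : Prop :=
  ∃ e ∈ S, (s e = v ∧ t e = w) ∨ (s e = w ∧ t e = v)

theorem vr_symm {s t : E → V} {S : Finset E} {v w : V} (h : VR s t S v w) : VR s t S w v := by
  obtain ⟨e, he, h1⟩ := h
  exact ⟨e, he, h1.symm⟩

theorem vr_irr {s t : E → V} {S : Finset E} (h : MinQ s t S) (v : V) : ¬ VR s t S v v := by
  rintro ⟨e, he, h1 | h1⟩ <;> exact noloop h e he (h1.1.trans h1.2.symm)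

theorem exists_x (p q : F) : ∃ x : F, x ≠ 0 ∧ x ≠ p ∧ x ≠ q := by
  revert p q
  decide

/-- the value of `tm` for an edge with two different ends -/
theorem tm_fst {s t : E → V} {φ : E → F} {e : E} {a b : V} (hab : a ≠ b)
    (h : (s e = a ∧ t e = b) ∨ (s e = b ∧ t e = a)) (v : V) :
    tm s t φ v e = if v = a ∨ v = b then φ e else 0 := by
  unfold tm
  rcases h with ⟨h1, h2⟩ | ⟨h1, h2⟩
  · rw [h1, h2]
    by_cases h3 : a = v
    · subst h3
      rw [if_pos rfl, if_neg (Ne.symm hab), if_pos (Or.inl rfl), add_zero]
    · by_cases h4 : b = v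
      · subst h4
        rw [if_neg h3, if_pos rfl, if_pos (Or.inr rfl), zero_add]
      · rw [if_neg h3, if_neg h4, if_neg, add_zero]
        rintro (h5 | h5)
        · exact h3 h5.symm
        · exact h4 h5.symm
  · rw [h1, h2]
    by_cases h3 : a = v
    · subst h3
      rw [if_neg (Ne.symm hab), if_pos rfl, if_pos (Or.inl rfl), zero_add]
    · by_cases h4 : b = v
      · subst h4
        rw [if_pos rfl, if_neg h3, if_pos (Or.inr rfl), add_zero]
      · rw [if_neg h4, if_neg h3, if_neg, add_zero]
        rintro (h5 | h5)
        · exact h3 h5.symm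
        · exact h4 h5.symm

theorem notri {s t : E → V} {S : Finset E} (h : MinQ s t S) (a b c : V)
    (hab : VR s t S a b) (hbc : VR s t S b c) (hac : VR s t S a c) : False := by
  classical
  have nab : a ≠ b := fun hh => vr_irr h b (hh ▸ hab)
  have nbc : b ≠ c := fun hh => vr_irr h c (hh ▸ hbc)
  have nac : a ≠ c := fun hh => vr_irr h c (hh ▸ hac)
  obtain ⟨e1, he1, h1⟩ := hab
  obtain ⟨e2, he2, h2⟩ := hbc
  obtain ⟨e3, he3, h3⟩ := hac
  have n12 : e1 ≠ e2 := by
    rintro rfl
    rcases h1 with ⟨p, q⟩ | ⟨p, q⟩ <;> rcases h2 with ⟨r, u⟩ | ⟨r, u⟩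
    · exact nab (p.symm.trans r)
    · exact nac (p.symm.trans r)
    · exact nac (q.symm.trans u)
    · exact nab (q.symm.trans u)
  have n13 : e1 ≠ e3 := by
    rintro rfl
    rcases h1 with ⟨p, q⟩ | ⟨p, q⟩ <;> rcases h3 with ⟨r, u⟩ | ⟨r, u⟩
    · exact nbc (q.symm.trans u)
    · exact nac (p.symm.trans r)
    · exact nac (q.symm.trans u)
    · exact nbc (p.symm.trans r)
  have n23 : e2 ≠ e3 := by
    rintro rfl
    rcases h2 with ⟨p, q⟩ | ⟨p, q⟩ <;> rcases h3 with ⟨r, u⟩ | ⟨r, u⟩
    · exact nab (r.symm.trans p)
    · exact nbc (p.symm.trans r)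
    · exact nbc (q.symm.trans u)
    · exact nab (u.symm.trans q)
  set T : Finset E := {e1, e2, e3} with hT
  have hTS : T ⊆ S := by
    intro e he
    rw [hT] at he
    simp only [mem_insert, mem_singleton] at he
    rcases he with rfl | rfl | rfl
    · exact he1
    · exact he2
    · exact he3
  set f : V → V := fun v => if v = b ∨ v = c then a else v with hf
  have fa : f a = a := by
    rw [hf]
    simp only [nab, nac, or_self, if_false]
  have fb : f b = a := if_pos (Or.inl rfl)
  have fc : f c = a := if_pos (Or.inr rfl)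
  have fn : ∀ v, v ≠ b → v ≠ c → f v = v := fun v h4 h5 => if_neg (by
    rintro (h6 | h6)
    · exact h4 h6
    · exact h5 h6)
  obtain ⟨φ, hφ0, hφ⟩ := h.ih f (S \ T) sdiff_subset (by
    intro e he he'
    have h4 : e ∈ T := by
      by_contra hcon
      exact he' (mem_sdiff.2 ⟨he, hcon⟩)
    rw [hT] at h4
    simp only [mem_insert, mem_singleton] at h4
    rcases h4 with rfl | rfl | rfl
    · rcases h1 with ⟨p, q⟩ | ⟨p, q⟩ <;> rw [p, q] <;> simp only [fa, fb]
    · rcases h2 with ⟨p, q⟩ | ⟨p, q⟩ <;> rw [p, q] <;> simp only [fb, fc]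
    · rcases h3 with ⟨p, q⟩ | ⟨p, q⟩ <;> rw [p, q] <;> simp only [fa, fc]) (by
    apply card_lt_card
    rw [ssubset_iff_of_subset sdiff_subset]
    exact ⟨e1, he1, fun hh => (mem_sdiff.1 hh).2 (by rw [hT]; simp)⟩)
  set B : V → F := fun v => ∑ e ∈ S \ T, tm s t φ v e with hB
  have hout : ∀ v, v ≠ a → v ≠ b → v ≠ c → B v = 0 := by
    intro v va vb vc
    have h4 := hφ v
    rw [cons_iff] at h4
    rw [← h4]
    show ∑ e ∈ S \ T, tm s t φ v e = _
    unfold tm
    have hkey : ∀ u, f u = v ↔ u = v := by
      intro u
      by_cases hu : u = b ∨ u = c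
      · have h5 : f u = a := if_pos hu
        rw [h5]
        constructor
        · intro h6
          exact absurd h6.symm va
        · intro h6
          rcases hu with h7 | h7
          · exact absurd (h6.symm.trans h7) vb
          · exact absurd (h6.symm.trans h7) vc
      · have h5 : f u = u := if_neg hu
        rw [h5]
    exact sum_congr rfl fun e _ => by simp only [hkey]
  have hin : B a + B b + B c = 0 := by
    have h4 := hφ a
    rw [cons_iff] at h4
    rw [← h4]
    show ∑ e ∈ S \ T, tm s t φ a e + ∑ e ∈ S \ T, tm s t φ b e + ∑ e ∈ S \ T, tm s t φ c e = _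
    rw [← sum_add_distrib, ← sum_add_distrib]
    apply sum_congr rfl
    intro e _
    have hkey : ∀ u : V, ∀ y : F, (if f u = a then y else 0) =
        (if u = a then y else 0) + (if u = b then y else 0) + (if u = c then y else 0) := by
      intro u y
      by_cases ua : u = a
      · subst ua
        rw [if_pos fa, if_pos rfl, if_neg nab, if_neg nac, add_zero, add_zero]
      · by_cases ub : u = b
        · subst ub
          rw [if_pos fb, if_neg ua, if_pos rfl, if_neg nbc, zero_add, add_zero]
        · by_cases uc : u = c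
          · subst uc
            rw [if_pos fc, if_neg ua, if_neg ub, if_pos rfl, zero_add, zero_add]
          · rw [fn u ub uc, if_neg ua, if_neg ub, if_neg uc, add_zero, add_zero]
    unfold tm
    rw [hkey, hkey]
    abel
  obtain ⟨x, hx0, hxa, hxb⟩ := exists_x (B a) (B b)
  have ne_add : ∀ y : F, x ≠ y → x + y ≠ 0 := by
    intro y hy hh
    exact hy (eq_of_add hh).symm
  apply h.nz
  set Φ : E → F := fun e => if e = e1 then x else if e = e2 then x + B b else
    if e = e3 then x + B a else φ e with hΦ
  have p1 : Φ e1 = x := if_pos rfl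
  have p2 : Φ e2 = x + B b := by
    rw [hΦ]
    simp only [n12.symm, if_false, if_true]
  have p3 : Φ e3 = x + B a := by
    rw [hΦ]
    simp only [n13.symm, n23.symm, if_false, if_true]
  have pn : ∀ e, e ∉ T → Φ e = φ e := by
    intro e he
    rw [hT] at he
    simp only [mem_insert, mem_singleton, not_or] at he
    rw [hΦ]
    simp only [he.1, he.2.1, he.2.2, if_false]
  refine ⟨Φ, ?_, ?_⟩
  · intro e he
    by_cases heT : e ∈ T
    · rw [hT] at heT
      simp only [mem_insert, mem_singleton] at heT
      rcases heT with rfl | rfl | rfl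
      · rw [p1]
        exact hx0
      · rw [p2]
        exact ne_add _ hxb
      · rw [p3]
        exact ne_add _ hxa
    · rw [pn e heT]
      exact hφ0 e (mem_sdiff.2 ⟨he, heT⟩)
  · intro v
    rw [cons_iff, ← Finset.sum_sdiff hTS]
    have h5 : ∑ e ∈ S \ T, tm s t Φ v e = B v := by
      refine sum_congr rfl fun e he => ?_
      unfold tm
      rw [pn e (mem_sdiff.1 he).2]
    have h6 : ∑ e ∈ T, tm s t Φ v e = tm s t Φ v e1 + (tm s t Φ v e2 + tm s t Φ v e3) := by
      rw [hT, sum_insert, sum_insert, sum_singleton]
      · simp only [mem_singleton]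
        exact n23
      · simp only [mem_insert, mem_singleton, not_or]
        exact ⟨n12, n13⟩
    rw [h5, h6, tm_fst nab h1, tm_fst nbc h2, tm_fst nac h3, p1, p2, p3]
    by_cases va : v = a
    · subst va
      rw [if_pos (Or.inl rfl), if_neg (by rintro (hh | hh); exacts [nab hh, nac hh]),
        if_pos (Or.inl rfl), zero_add]
      have h7 : B v + (x + (x + B v)) = (x + x) + (B v + B v) := by abel
      rw [h7, add_self, add_self, add_zero]
    · by_cases vb : v = b
      · subst vb
        rw [if_pos (Or.inr rfl), if_pos (Or.inl rfl),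
          if_neg (by rintro (hh | hh); exacts [nab hh.symm, nbc hh]), add_zero]
        have h7 : B v + (x + (x + B v)) = (x + x) + (B v + B v) := by abel
        rw [h7, add_self, add_self, add_zero]
      · by_cases vc : v = c
        · subst vc
          rw [if_neg (by rintro (hh | hh); exacts [va hh, vb hh]), if_pos (Or.inr rfl),
            if_pos (Or.inr rfl), zero_add]
          have h7 : B v + (x + B b + (x + B a)) = (x + x) + (B a + B b + B v) := by abel
          rw [h7, add_self, hin, add_zero]
        · rw [if_neg (by rintro (hh | hh); exacts [va hh, vb hh]),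
            if_neg (by rintro (hh | hh); exacts [vb hh, vc hh]),
            if_neg (by rintro (hh | hh); exacts [va hh, vc hh]), hout v va vb vc]
          simp only [add_zero]

theorem spa {s t : E → V} {S : Finset E} (h : MinQ s t S) (N : ℕ) :
    ∀ X : Finset V, X.Nonempty → X.card ≤ N → (ins s t S X).card + 2 ≤ 2 * X.card ∧
      (2 ≤ X.card → (ins s t S X).card + 3 ≤ 2 * X.card) := by
  induction N with
  | zero =>
    intro X hX hN
    have := Finset.card_pos.2 hX
    omega
  | succ N ih =>
    intro X hX hN
    by_cases h2 : 2 ≤ X.card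
    · have key : (ins s t S X).card + 3 ≤ 2 * X.card := by
        by_contra hc
        refine nostrong h X h2 fun c π hπ => ?_
        by_contra hcon
        apply hc
        have hc2 : 2 ≤ c := by omega
        -- the classes
        have hlt : ∀ j : Fin c, (X.filter (fun v => π v = j)).card < X.card := by
          intro j
          have hex : ∃ j' : Fin c, j' ≠ j := by
            by_cases hj : j = ⟨0, by omega⟩
            · exact ⟨⟨1, by omega⟩, by rw [hj]; intro h5; have := Fin.val_eq_of_eq h5; simp at this⟩
            · exact ⟨⟨0, by omega⟩, Ne.symm hj⟩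
          obtain ⟨j', hj'⟩ := hex
          obtain ⟨v, hv, hvj⟩ := hπ j'
          apply Finset.card_lt_card
          rw [Finset.filter_ssubset]
          exact ⟨v, hv, fun h5 => hj' (hvj.symm.trans h5)⟩
        have hne : ∀ j : Fin c, (X.filter (fun v => π v = j)).Nonempty := by
          intro j
          obtain ⟨v, hv, hvj⟩ := hπ j
          exact ⟨v, Finset.mem_filter.2 ⟨hv, hvj⟩⟩
        have hih : ∀ j : Fin c, (ins s t S (X.filter (fun v => π v = j))).card + 2 ≤
            2 * (X.filter (fun v => π v = j)).card := by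
          intro j
          have := hlt j
          exact (ih _ (hne j) (by omega)).1
        have hsum := Finset.sum_le_sum fun (j : Fin c) (_ : j ∈ univ) => hih j
        rw [Finset.sum_add_distrib, ← Finset.mul_sum, Finset.sum_const,
          Finset.card_univ, Fintype.card_fin, smul_eq_mul] at hsum
        have hXsum : X.card = ∑ j : Fin c, (X.filter (fun v => π v = j)).card :=
          Finset.card_eq_sum_card_fiberwise (fun _ _ => Finset.mem_coe.2 (Finset.mem_univ _))
        have hin : ((ins s t S X).filter (fun e => π (s e) = π (t e))).card =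
            ∑ j : Fin c, (ins s t S (X.filter (fun v => π v = j))).card := by
          rw [Finset.card_eq_sum_card_fiberwise (f := fun e => π (s e)) (t := univ)
            (fun _ _ => Finset.mem_coe.2 (Finset.mem_univ _))]
          apply Finset.sum_congr rfl
          intro j _
          congr 1
          ext e
          simp only [ins, Finset.mem_filter]
          constructor
          · rintro ⟨⟨⟨h5, h6, h7⟩, h8⟩, h9⟩
            exact ⟨h5, ⟨h6, h9⟩, ⟨h7, h8 ▸ h9⟩⟩
          · rintro ⟨h5, ⟨h6, h9⟩, ⟨h7, h8⟩⟩
            exact ⟨⟨⟨h5, h6, h7⟩, h9.trans h8.symm⟩, h9⟩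
        have hsplit := Finset.card_filter_add_card_filter_not (s := ins s t S X)
          (fun e => π (s e) = π (t e))
        rw [← hXsum, ← hin] at hsum
        have hcon' : ((ins s t S X).filter (fun e => ¬ π (s e) = π (t e))).card + 2 <
            2 * c := not_le.1 hcon
        omega
      exact ⟨by omega, fun _ => key⟩
    · have h1 : X.card = 1 := by
        have := Finset.card_pos.2 hX
        omega
      obtain ⟨v, rfl⟩ := Finset.card_eq_one.1 h1
      have h3 : ins s t S {v} = ∅ := by
        rw [Finset.eq_empty_iff_forall_notMem]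
        intro e he
        simp only [ins, Finset.mem_filter, Finset.mem_singleton] at he
        exact noloop h e he.1 (he.2.1.trans he.2.2.symm)
      rw [h3]
      refine ⟨by simp, fun h5 => absurd h5 h2⟩

open Classical in
theorem degen {s t : E → V} {S : Finset E} (h : MinQ s t S) (X : Finset V) (hX : X.Nonempty) :
    ∃ v ∈ X, (X.filter (VR s t S v)).card ≤ 3 := by
  by_contra hcon
  push Not at hcon
  have h1 := spa h X.card X hX le_rfl
  have h2 : ∀ v ∈ X, 4 ≤ deg s t (ins s t S X) v := by
    intro v hv
    have h3 : X.filter (VR s t S v) ⊆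
        ((ins s t S X).filter (fun e => s e = v ∨ t e = v)).image
          (fun e => if s e = v then t e else s e) := by
      intro w hw
      rw [mem_filter] at hw
      obtain ⟨hw1, e, he, h4⟩ := hw
      have hvw : v ≠ w := by
        rintro rfl
        exact vr_irr h v ⟨e, he, h4⟩
      refine mem_image.2 ⟨e, ?_, ?_⟩
      · unfold ins
        rw [mem_filter, mem_filter]
        rcases h4 with ⟨p, q⟩ | ⟨p, q⟩
        · exact ⟨⟨he, p ▸ hv, q ▸ hw1⟩, Or.inl p⟩
        · exact ⟨⟨he, p ▸ hw1, q ▸ hv⟩, Or.inr q⟩
      · rcases h4 with ⟨p, q⟩ | ⟨p, q⟩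
        · show (if s e = v then t e else s e) = w
          rw [if_pos p, q]
        · show (if s e = v then t e else s e) = w
          rw [if_neg (by rw [p]; exact hvw.symm), p]
    have h4 := (card_le_card h3).trans card_image_le
    have h5 : ((ins s t S X).filter (fun e => s e = v ∨ t e = v)).card ≤
        deg s t (ins s t S X) v := by
      unfold deg
      rw [card_filter]
      refine Finset.sum_le_sum fun e _ => ?_
      by_cases hs : s e = v <;> by_cases ht : t e = v <;> simp [hs, ht]
    exact (Nat.succ_le_of_lt (hcon v hv)).trans (h4.trans h5)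
  have h3 : ∑ v ∈ X, 4 ≤ ∑ v ∈ X, deg s t (ins s t S X) v := Finset.sum_le_sum h2
  have h4 : ∑ v ∈ X, deg s t (ins s t S X) v ≤ 2 * (ins s t S X).card := by
    rw [deg_sum]
    refine (Finset.sum_le_card_nsmul _ _ 2 fun e _ => ?_).trans ?_
    · split_ifs <;> omega
    · rw [smul_eq_mul, mul_comm]
  rw [Finset.sum_const, smul_eq_mul] at h3
  have h5 := Finset.card_pos.2 hX
  omega

theorem vr_tf {s t : E → V} {S : Finset E} (h : MinQ s t S) : TF (VR s t S) where
  symm := fun _ _ h1 => vr_symm h1
  irr := vr_irr h
  tri := fun i j k h1 h2 h3 => notri h i j k h1 h2 h3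

end Pool.Agent.X186.IC
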