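import Pool.Agent.X42.FewOrient
import Pool.Agent.X186.IC.Defs

/-!
Flows whose values are differences of two of five unit vectors.
(Adapted from `Pool/Agent/X42/FewOrient.lean`.)
-/

set_option autoImplicit false
set_option linter.unusedSectionVars false
set_option linter.unusedDecidableInType false
set_option linter.unusedFintypeInType false

namespace Pool.Agent.X186.IC.FO

open Finset Pool.Agent.TH362.TF Pool.Agent.TH362.TF.Red
open Pool.Agent.X42.FlowH Pool.Agent.X42.FewCover
open Pool.Agent.X42.FewOrient hiding sideNZ class_vals roots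
open Pool.Agent.TH362.TF.Contr (nb_inj nb_ne padj_nb struct)
open Pool.Agent.TH362.TF.Str (joins_other)

variable {V E : Type} [Fintype V] [DecidableEq V] [Fintype E] [DecidableEq E]

/-- In a Petersen quotient the graph in which the complement of a class is contracted has a
flow. -/
theorem sideNZ {s t : E → V} {κ : V → Fin 10} (hκ : IsPQ s t univ κ)
    (hI : ∀ k, ∃ φ : E → F, Inn s t univ κ k φ) (k : Fin 10) : ∃ (w0 : V) (φ : E → F), κ w0 ≠ k ∧
      (∀ v, κ v = k → Cons s t univ φ v) ∧
      (∀ e ∈ univ.filter (fun e => κ (s e) = k ∨ κ (t e) = k), φ e ≠ 0) ∧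
      ∀ v, Cons (fun e => if κ (s e) = k then s e else w0)
        (fun e => if κ (t e) = k then t e else w0)
        (univ.filter (fun e => κ (s e) = k ∨ κ (t e) = k)) φ v := by
  classical
  obtain ⟨φ, hφ1, hφ2⟩ := hI k
  obtain ⟨e, he1, he2⟩ := struct s t κ hκ k
  have hw : ∃ w0, κ w0 ≠ k := by
    rcases he1 0 with ⟨_, b⟩ | ⟨a, _⟩
    · exact ⟨_, by rw [b]; exact nb_ne k 0⟩
    · exact ⟨_, by rw [a]; exact nb_ne k 0⟩
  obtain ⟨w0, hw0⟩ := hw
  refine ⟨w0, φ, hw0, hφ2, ?_, ?_⟩
  · intro x hx
    exact hφ1 x (mem_univ _) (mem_filter.1 hx).2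
  · intro v
    unfold Cons
    by_cases hv : κ v = k
    · have h3 : ∑ e, ((if s e = v then φ e else 0) + (if t e = v then φ e else 0)) = 0 := hφ2 v hv
      refine Eq.trans ?_ h3
      have h4 : ∑ e ∈ univ.filter (fun e => κ (s e) = k ∨ κ (t e) = k),
          ((if s e = v then φ e else 0) + (if t e = v then φ e else 0)) =
          ∑ e, ((if s e = v then φ e else 0) + (if t e = v then φ e else 0)) := by
        apply Finset.sum_subset (subset_univ _)
        intro e _ he
        have h5 : ¬ (κ (s e) = k ∨ κ (t e) = k) := fun hh => he (mem_filter.2 ⟨mem_univ _, hh⟩)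
        push Not at h5
        rw [if_neg (fun hh => h5.1 (by rw [hh]; exact hv)),
          if_neg (fun hh => h5.2 (by rw [hh]; exact hv)), add_zero]
      rw [← h4]
      refine Finset.sum_congr rfl fun e _ => ?_
      have key : ∀ u : V, ((if κ u = k then u else w0) = v) ↔ u = v := by
        intro u
        by_cases hu : κ u = k
        · rw [if_pos hu]
        · rw [if_neg hu]
          constructor
          · intro hh
            rw [← hh] at hv
            exact absurd hv hw0
          · intro hh
            rw [hh] at hu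
            exact absurd hv hu
      simp only [key]
    · by_cases hvw : v = w0
      · subst hvw
        have key : ∀ u : V, ((if κ u = k then u else v) = v) ↔ ¬ κ u = k := by
          intro u
          by_cases hu : κ u = k
          · rw [if_pos hu]
            constructor
            · intro hh
              rw [hh] at hu
              exact absurd hu hv
            · intro hh
              exact absurd hu hh
          · rw [if_neg hu]
            exact ⟨fun _ => hu, fun _ => rfl⟩
        simp only [key]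
        have h3 := flow_cut (s := s) (t := t) (S := univ) (φ := φ) (fun v => decide (κ v = k)) (by
          intro v hv
          exact hφ2 v (by simpa using hv))
        refine Eq.trans ?_ h3
        unfold cut
        rw [Finset.sum_filter, Finset.sum_filter]
        refine Finset.sum_congr rfl fun e _ => ?_
        by_cases ha : κ (s e) = k <;> by_cases hb : κ (t e) = k <;> simp [ha, hb]
      · have key : ∀ u : V, ¬ ((if κ u = k then u else w0) = v) := by
          intro u hh
          by_cases hu : κ u = k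
          · rw [if_pos hu] at hh
            rw [hh] at hu
            exact hv hu
          · rw [if_neg hu] at hh
            exact hvw hh.symm
        apply Finset.sum_eq_zero
        intro e _
        rw [if_neg (key _), if_neg (key _), add_zero]

/-- The values on the edges at a class. -/
theorem class_vals {s t : E → V} {κ : V → Fin 10} (hκ : IsPQ s t univ κ)
    (hI : ∀ k, ∃ φ : E → F, Inn s t univ κ k φ) (k : Fin 10) (ee : Fin 3 → E)
    (he1 : ∀ j, Joins κ s t k (nb k j) (ee j))
    (he2 : ∀ x, ¬ (κ (s x) = k ↔ κ (t x) = k) → ∃ j, x = ee j) :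
    ∃ p : E → Fin 5 × Fin 5, (∀ e, κ (s e) = k ∨ κ (t e) = k → (p e).1 ≠ (p e).2) ∧
      (∀ j i, rt (p (ee j)) i * ((if κ (s (ee j)) = k then 1 else 0) -
        (if κ (t (ee j)) = k then 1 else 0)) = rt (PP k (nb k j)) i) ∧
      ∀ v i, κ v = k → out s t (fun e => rt (p e) i) v = 0 := by
  classical
  obtain ⟨w0, φ, hw0, hφ0, hφ1, hφ2⟩ := sideNZ hκ hI k
  set s' : E → V := fun e => if κ (s e) = k then s e else w0 with hs'
  set t' : E → V := fun e => if κ (t e) = k then t e else w0 with ht'
  set S1 : Finset E := univ.filter (fun e => κ (s e) = k ∨ κ (t e) = k) with hS1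
  have hmem : ∀ e, e ∈ S1 ↔ (κ (s e) = k ∨ κ (t e) = k) := fun e => by
    rw [hS1, mem_filter]
    exact ⟨fun h => h.2, fun h => ⟨mem_univ _, h⟩⟩
  have hend : ∀ j, ee j ∈ S1 := by
    intro j
    rw [hmem]
    rcases he1 j with ⟨a, _⟩ | ⟨_, b⟩
    · exact Or.inl a
    · exact Or.inr b
  set y : Fin 3 → F := fun j => φ (ee j) with hy
  have hyn : ∀ j, y j ≠ 0 := fun j => hφ1 _ (hend j)
  have hinj : ∀ i j, ee i = ee j → i = j := by
    intro i j hij
    have h3 := he1 i
    rw [hij] at h3
    exact nb_inj k i j (joins_other (nb_ne k i).symm h3 (he1 j))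
  -- net outflow through the boundary of the class
  set ε : Fin 3 → ℤ := fun j => (if κ (s (ee j)) = k then 1 else 0) -
    (if κ (t (ee j)) = k then 1 else 0) with hε
  have hεv : ∀ j, ε j = 1 ∨ ε j = -1 := by
    intro j
    rw [hε]
    rcases he1 j with ⟨a, b⟩ | ⟨a, b⟩
    · left
      simp only [a, b, if_true, if_neg (nb_ne k j), sub_zero]
    · right
      simp only [a, b, if_true, if_neg (nb_ne k j), zero_sub]
  -- conservation of integer flows of the side graph at the vertices of the class
  have hcons : ∀ g : E → ℤ, (∀ e, e ∉ S1 → g e = 0) → (∀ v, out s' t' g v = 0) →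
      ∀ v, κ v = k → out s t g v = 0 := by
    intro g _ h4 v hv
    refine Eq.trans ?_ (h4 v)
    unfold out
    refine Finset.sum_congr rfl fun e _ => ?_
    have key : ∀ u : V, ((if κ u = k then u else w0) = v) ↔ u = v := by
      intro u
      by_cases hu : κ u = k
      · rw [if_pos hu]
      · rw [if_neg hu]
        constructor
        · intro hh
          rw [← hh] at hv
          exact absurd hv hw0
        · intro hh
          rw [hh] at hu
          exact absurd hv hu
    rw [hs', ht']
    simp only [key]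
  have hbd : ∀ g : E → ℤ, (∀ v, κ v = k → out s t g v = 0) →
      g (ee 0) * ε 0 + g (ee 1) * ε 1 + g (ee 2) * ε 2 = 0 := by
    intro g h4
    have h5 : ∑ v ∈ univ.filter (fun v => κ v = k), out s t g v = 0 :=
      Finset.sum_eq_zero fun v hv => h4 v (mem_filter.1 hv).2
    have h6 : ∑ v ∈ univ.filter (fun v => κ v = k), out s t g v =
        ∑ e, g e * ((if κ (s e) = k then 1 else 0) - (if κ (t e) = k then 1 else 0)) := by
      unfold out
      rw [Finset.sum_comm]
      refine Finset.sum_congr rfl fun e _ => ?_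
      rw [← Finset.mul_sum, Finset.sum_sub_distrib, Finset.sum_ite_eq, Finset.sum_ite_eq]
      simp only [mem_filter, mem_univ, true_and]
    rw [h6] at h5
    have h7 : ∑ e, g e * ((if κ (s e) = k then (1 : ℤ) else 0) - (if κ (t e) = k then 1 else 0)) =
        ∑ e ∈ univ.image ee, g e * ((if κ (s e) = k then (1 : ℤ) else 0) -
          (if κ (t e) = k then 1 else 0)) := by
      symm
      apply Finset.sum_subset (subset_univ _)
      intro e _ he
      have h8 : (κ (s e) = k ↔ κ (t e) = k) := by
        by_contra hcon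
        obtain ⟨j, rfl⟩ := he2 e hcon
        exact he (mem_image_of_mem _ (mem_univ j))
      by_cases h9 : κ (s e) = k
      · rw [if_pos h9, if_pos (h8.1 h9)]; ring
      · rw [if_neg h9, if_neg (fun h => h9 (h8.2 h))]; ring
    rw [h7, Finset.sum_image (fun i _ j _ hij => hinj i j hij), Fin.sum_univ_three] at h5
    exact h5
  -- the three coordinates
  have hcoord : ∀ (m j0 : Fin 3), m ≠ j0 → ∃ g : E → ℤ,
      (∀ e ∈ S1, lam (y m) (φ e) = 1 → g e = 1 ∨ g e = -1) ∧
      (∀ e ∈ S1, lam (y m) (φ e) = 0 → g e = 0) ∧ (∀ e, e ∉ S1 → g e = 0) ∧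
      (∀ v, κ v = k → out s t g v = 0) ∧ g (ee j0) * ε j0 = 1 := by
    intro m j0 hm
    obtain ⟨g, g1, g2, g3⟩ := pm1 (s := s') (t := t') (S := S1) (φ := φ) hφ2 (y m)
    have g4 : ∀ v, κ v = k → out s t g v = 0 := hcons g (fun e he => g2 e (fun h => he h.1)) g3
    have g5 : lam (y m) (φ (ee j0)) = 1 := by
      have := (lam_fact y hyn (by
        have h3 := class_sum hκ k ee he1 (φ := φ) hφ0
        exact h3)).1 m j0
      rw [if_neg hm] at this
      exact this
    have g6 := g1 _ (hend j0) g5
    by_cases hsg : g (ee j0) * ε j0 = 1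
    · refine ⟨g, g1, fun e he h0 => g2 e (fun h => ?_), fun e he => g2 e (fun h => he h.1), g4, hsg⟩
      rw [h0] at h
      exact absurd h.2 (by decide)
    · refine ⟨fun e => - g e, fun e he h0 => ?_, fun e he h0 => ?_, fun e he => ?_, fun v hv => ?_, ?_⟩
      · rcases g1 e he h0 with h | h
        · right
          show - g e = -1
          rw [h]
        · left
          show - g e = 1
          rw [h]; rfl
      · show - g e = 0
        rw [g2 e (fun h => by rw [h0] at h; exact absurd h.2 (by decide)), neg_zero]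
      · show - g e = 0
        rw [g2 e (fun h => he h.1), neg_zero]
      · have h5 : out s t (fun e => - g e) v = - out s t g v := by
          unfold out
          rw [← Finset.sum_neg_distrib]
          refine Finset.sum_congr rfl fun e _ => ?_
          ring
        rw [h5, g4 v hv, neg_zero]
      · show - g (ee j0) * ε j0 = 1
        rcases g6 with h | h <;> rcases hεv j0 with h' | h' <;> rw [h, h'] at hsg ⊢ <;>
          first | (exfalso; apply hsg; norm_num; done) | (norm_num; done)
  have hys : y 0 + y 1 + y 2 = 0 := class_sum hκ k ee he1 (φ := φ) hφ0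
  obtain ⟨A, A1, A2, A3, A4, A5⟩ := hcoord 1 0 (by decide)
  obtain ⟨B, B1, B2, B3, B4, B5⟩ := hcoord 2 1 (by decide)
  obtain ⟨C, C1, C2, C3, C4, C5⟩ := hcoord 0 2 (by decide)
  obtain ⟨a, b, c, d, hab, hac, had, hbc, hbd', hcd, hP⟩ := PP_cls k
  obtain ⟨τ, hτ, hτP⟩ : ∃ τ : ℤ, (τ = 1 ∨ τ = -1) ∧
      (∀ i, rt (PP k (nb k 0)) i = τ * rt (a, b) i) ∧
      (∀ i, rt (PP k (nb k 1)) i = τ * rt (b, c) i) ∧
      ∀ i, rt (PP k (nb k 2)) i = τ * rt (c, a) i := by
    rcases hP with ⟨p0, p1, p2⟩ | ⟨p0, p1, p2⟩
    · refine ⟨1, Or.inl rfl, ?_, ?_, ?_⟩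
      · intro i; rw [p0, one_mul]
      · intro i; rw [p1, one_mul]
      · intro i; rw [p2, one_mul]
    · refine ⟨-1, Or.inr rfl, ?_, ?_, ?_⟩
      · intro i; rw [p0]; unfold rt; ring
      · intro i; rw [p1]; unfold rt; ring
      · intro i; rw [p2]; unfold rt; ring
  have hroot : ∀ e, ∃ p : Fin 5 × Fin 5, (e ∈ S1 → p.1 ≠ p.2) ∧
      ∀ i, HE τ a b c d A B C e i = 2 * rt p i := by
    intro e
    by_cases he : e ∈ S1
    · have h3 := lam_vals y hyn hys (φ e) (hφ1 e he)
      obtain ⟨p, hp1, hp2⟩ := root τ a b c d (A e) (B e) (C e) hτ hab hac had hbc hbd' hcd (by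
        rcases h3 with ⟨q1, q2, q3⟩ | ⟨q1, q2, q3⟩ | ⟨q1, q2, q3⟩
        · exact Or.inr (Or.inr ⟨C2 e he q1, A1 e he q2, B1 e he q3⟩)
        · exact Or.inl ⟨A2 e he q1, B1 e he q3, C1 e he q2⟩
        · exact Or.inr (Or.inl ⟨B2 e he q1, A1 e he q3, C1 e he q2⟩))
      exact ⟨p, fun _ => hp1, hp2⟩
    · refine ⟨(0, 0), fun h => absurd h he, fun i => ?_⟩
      unfold HE HH rt
      rw [A3 e he, B3 e he, C3 e he]
      ring
  choose p hp1 hp2 using hroot
  refine ⟨p, fun e he => hp1 e ((hmem e).2 he), ?_, ?_⟩
  · -- the boundary values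
    have hA0 := hbd A A4
    have hB0 := hbd B B4
    have hC0 := hbd C C4
    have l1 := (lam_fact y hyn hys).1
    have hA1 : A (ee 1) = 0 := A2 _ (hend 1) (by
      have := l1 1 1
      rw [if_pos rfl] at this
      exact this)
    have hB2 : B (ee 2) = 0 := B2 _ (hend 2) (by
      have := l1 2 2
      rw [if_pos rfl] at this
      exact this)
    have hC0' : C (ee 0) = 0 := C2 _ (hend 0) (by
      have := l1 0 0
      rw [if_pos rfl] at this
      exact this)
    have hA2 : A (ee 2) * ε 2 = -1 := by rw [hA1] at hA0; linarith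
    have hB0' : B (ee 0) * ε 0 = -1 := by rw [hB2] at hB0; linarith
    have hC1 : C (ee 1) * ε 1 = -1 := by rw [hC0'] at hC0; linarith
    have hlin : ∀ j i, 2 * (rt (p (ee j)) i * ε j) = HH τ a b c d (A (ee j) * ε j)
        (B (ee j) * ε j) (C (ee j) * ε j) i := by
      intro j i
      rw [← mul_assoc, ← hp2]
      unfold HE HH
      ring
    intro j i
    have h2 : (2 : ℤ) ≠ 0 := by norm_num
    apply mul_left_cancel₀ h2
    show 2 * (rt (p (ee j)) i * ε j) = _
    rw [hlin]
    have hj : ∀ j : Fin 3, j = 0 ∨ j = 1 ∨ j = 2 := by decide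
    rcases hj j with rfl | rfl | rfl
    · rw [A5, hB0', hC0', hτP.1 i]
      unfold HH rt
      ring
    · rw [hA1, B5, hC1, hτP.2.1 i]
      unfold HH rt
      ring
    · rw [hA2, hB2, C5, hτP.2.2 i]
      unfold HH rt
      ring
  · intro v i hv
    have h3 := out_HE s t τ a b c d A B C v (A4 v hv) (B4 v hv) (C4 v hv) i
    have h4 : out s t (fun e => HE τ a b c d A B C e i) v = 2 * out s t (fun e => rt (p e) i) v := by
      unfold out
      rw [Finset.mul_sum]
      refine Finset.sum_congr rfl fun e _ => ?_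
      have h5 := hp2 e i
      simp only [h5]
      ring
    rw [h4] at h3
    exact (mul_eq_zero.1 h3).resolve_left (by norm_num)

/-- **Flows whose values are differences of two of five unit vectors.** -/
theorem roots {s t : E → V} (hD : Dic s t) :
    ∃ p : E → Fin 5 × Fin 5, (∀ e, (p e).1 ≠ (p e).2) ∧
      ∀ v i, out s t (fun e => rt (p e) i) v = 0 := by
  classical
  rcases hD with ⟨φ, hφ1, hφ2⟩ | ⟨κ, hκ, hI⟩
  · obtain ⟨A, A1, A2, A3⟩ := pm1 hφ2 (0, 1)
    obtain ⟨B, B1, B2, B3⟩ := pm1 hφ2 (1, 1)
    obtain ⟨C, C1, C2, C3⟩ := pm1 hφ2 (1, 0)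
    have hv := lam_vals ![(1, 0), (0, 1), (1, 1)] (by decide) (by decide)
    have hroot : ∀ e, ∃ p : Fin 5 × Fin 5, p.1 ≠ p.2 ∧
        ∀ i, HE 1 0 1 2 3 A B C e i = 2 * rt p i := by
      intro e
      refine root 1 0 1 2 3 (A e) (B e) (C e) (Or.inl rfl) (by decide) (by decide) (by decide)
        (by decide) (by decide) (by decide) ?_
      have h0 : ∀ x : F, lam x (φ e) = 0 → ¬ (e ∈ (univ : Finset E) ∧ lam x (φ e) = 1) := by
        intro x hx h
        rw [hx] at h
        exact absurd h.2 (by decide)
      rcases hv (φ e) (hφ1 e (mem_univ e)) with ⟨q1, q2, q3⟩ | ⟨q1, q2, q3⟩ | ⟨q1, q2, q3⟩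
      · exact Or.inr (Or.inr ⟨C2 e (h0 _ q1), A1 e (mem_univ _) q2, B1 e (mem_univ _) q3⟩)
      · exact Or.inl ⟨A2 e (h0 _ q1), B1 e (mem_univ _) q3, C1 e (mem_univ _) q2⟩
      · exact Or.inr (Or.inl ⟨B2 e (h0 _ q1), A1 e (mem_univ _) q3, C1 e (mem_univ _) q2⟩)
    choose p hp1 hp2 using hroot
    refine ⟨p, hp1, fun v i => ?_⟩
    have h3 := out_HE s t 1 0 1 2 3 A B C v (A3 v) (B3 v) (C3 v) i
    have h4 : out s t (fun e => HE 1 0 1 2 3 A B C e i) v = 2 * out s t (fun e => rt (p e) i) v := by
      unfold out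
      rw [Finset.mul_sum]
      refine Finset.sum_congr rfl fun e _ => ?_
      have h5 := hp2 e i
      simp only [h5]
      ring
    rw [h4] at h3
    exact (mul_eq_zero.1 h3).resolve_left (by norm_num)
  · choose ee he1 he2 using fun k => struct s t κ hκ k
    choose p hp1 hp2 hp3 using fun k => class_vals hκ hI k (ee k) (he1 k) (he2 k)
    have key : ∀ (k : Fin 10) (e : E) (i : Fin 5), κ (s e) = k ∨ κ (t e) = k →
        rt (if κ (s e) = κ (t e) then p (κ (s e)) e else PP (κ (s e)) (κ (t e))) i =
          rt (p k e) i := by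
      intro k e i he
      by_cases hin : κ (s e) = κ (t e)
      · have h3 : κ (s e) = k := by
          rcases he with he | he
          · exact he
          · rw [hin]; exact he
        rw [if_pos hin, h3]
      · have h3 : ¬ (κ (s e) = k ↔ κ (t e) = k) := by
          intro hh
          rcases he with hx | hx
          · exact hin (hx.trans (hh.1 hx).symm)
          · exact hin ((hh.2 hx).trans hx.symm)
        obtain ⟨j, rfl⟩ := he2 k e h3
        rw [if_neg hin]
        have h4 := hp2 k j i
        rcases he1 k j with ⟨a, b⟩ | ⟨a, b⟩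
        · rw [a, b, if_pos rfl, if_neg (nb_ne k j)] at h4
          rw [a, b, ← h4]
          ring
        · rw [a, b, if_pos rfl, if_neg (nb_ne k j)] at h4
          rw [a, b, PP_anti]
          have h5 : rt ((PP k (nb k j)).2, (PP k (nb k j)).1) i = - rt (PP k (nb k j)) i := by
            unfold rt
            ring
          rw [h5, ← h4]
          ring
    refine ⟨fun e => if κ (s e) = κ (t e) then p (κ (s e)) e else PP (κ (s e)) (κ (t e)),
      fun e => ?_, fun v i => ?_⟩
    · by_cases hin : κ (s e) = κ (t e)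
      · simp only [if_pos hin]
        exact hp1 _ e (Or.inl rfl)
      · simp only [if_neg hin]
        obtain ⟨j, hj⟩ := he2 (κ (s e)) e (fun h => hin (h.1 rfl).symm)
        have h3 := he1 (κ (s e)) j
        rw [← hj] at h3
        rcases h3 with ⟨_, b⟩ | ⟨a, _⟩
        · rw [b]
          exact PP_ne _ _
        · exact absurd a.symm (nb_ne _ _)
    · refine Eq.trans ?_ (hp3 (κ v) v i rfl)
      unfold out
      refine Finset.sum_congr rfl fun e _ => ?_
      by_cases h3 : s e = v
      · simp only
        rw [key (κ v) e i (Or.inl (by rw [h3]))]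
      · by_cases h4 : t e = v
        · simp only
          rw [key (κ v) e i (Or.inr (by rw [h4]))]
        · rw [if_neg h3, if_neg h4]
          ring

end Pool.Agent.X186.IC.FO
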