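import Pool.Agent.X42.FewOCDC
import Pool.Agent.X186.IC.Orient

/-!
Orientable five cycle double covers of simple graphs with few independent small cuts.
(Adapted from `Pool/Agent/X42/FewOCDC.lean`.)
-/

set_option autoImplicit false
set_option linter.unusedSectionVars false
set_option linter.unusedDecidableInType false
set_option linter.unusedFintypeInType false

namespace Pool.Agent.X186.IC

open Finset Pool.Agent.TH505.OCDC
open Pool.Agent.X42.FewOCDC hiding final FewSmallCutsG few
open Pool.Agent.X42.FewOrient (rt out)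
open Pool.Agent.X42.FewCuts (boundary)

variable {V : Type}

/-- Some vertex in `X` is adjacent to some vertex in `Y`. -/
def AdjacentG (G : SimpleGraph V) (X Y : Set V) : Prop := ∃ u ∈ X, ∃ v ∈ Y, G.Adj u v

/-- There are a set `U` of vertices and numbers `a ≥ 3` and `c ≥ 1` with
`4 a + |U| + ⌊6 / c⌋ ≤ 21` such that there are no `a + 1` pairwise disjoint and pairwise
non-adjacent vertex sets, all of them disjoint from `U`, each with an odd number, at most
`2 c + 1`, of boundary edges. -/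
def IndependentSmallCutsG (G : SimpleGraph V) : Prop :=
  ∃ (U : Set V) (a c : ℕ), 3 ≤ a ∧ 1 ≤ c ∧ 4 * a + U.ncard + 6 / c ≤ 21 ∧
    ¬ ∃ X : Fin (a + 1) → Set V,
      (∀ i j, i ≠ j → Disjoint (X i) (X j) ∧ ¬ AdjacentG G (X i) (X j)) ∧
      (∀ i, Disjoint (X i) U) ∧
      ∀ i, Odd (edgesOut G (X i)) ∧ edgesOut G (X i) ≤ 2 * c + 1

lemma indep (G : SimpleGraph V) (h : IndependentSmallCutsG G) :
    IndependentSmallCuts (sE G) (tE G) := by
  obtain ⟨U, a, c, ha, hc, hU, h1⟩ := h
  refine ⟨U, a, c, ha, hc, hU, ?_⟩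
  rintro ⟨X, h2, h3, h4⟩
  apply h1
  refine ⟨X, fun i j hij => ⟨(h2 i j hij).1, ?_⟩, h3, fun i => ?_⟩
  · rintro ⟨u, hu, v, hv, huv⟩
    apply (h2 i j hij).2
    refine ⟨⟨s(u, v), huv⟩, ?_⟩
    rcases (st_eq G huv ⟨s(u, v), huv⟩).1 rfl with ⟨h5, h6⟩ | ⟨h5, h6⟩
    · left
      rw [h5, h6]
      exact ⟨hu, hv⟩
    · right
      rw [h5, h6]
      exact ⟨hv, hu⟩
  · rw [← boundary_eq]
    exact h4 i

open scoped Classical in
theorem final [Fintype V] (G : SimpleGraph V)
    (h : ∀ u v : V, G.Adj u v → (G.deleteEdges {s(u, v)}).Reachable u v)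
    (hF : IndependentSmallCutsG G) :
    ∃ C : Fin 5 → List (Σ v : V, G.Walk v v), (∀ i, ∀ c ∈ C i, c.2.IsCycle) ∧
      (∀ i u v, tot (C i) u v + tot (C i) v u ≤ 1) ∧
      ∀ u v, G.Adj u v → ∑ i, tot (C i) u v = 1 := by
  have hn := n1_of G h
  obtain ⟨f, hf1, hf2⟩ := FO.roots (dic hn (indep G hF))
  have hanti : ∀ i u v, gfl G f i v u = - gfl G f i u v := by
    intro i u v
    unfold gfl
    rw [← Finset.sum_neg_distrib]
    refine Finset.sum_congr rfl fun e _ => ?_
    simp only [and_comm]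
    ring
  have hz : ∀ i u v, ¬ G.Adj u v → gfl G f i u v = 0 := by
    intro i u v h
    unfold gfl
    refine Finset.sum_eq_zero fun e _ => ?_
    rw [if_neg, if_neg]
    · ring
    · rintro ⟨h1, h2⟩
      exact h (h1 ▸ h2 ▸ (st_adj G e).symm)
    · rintro ⟨h1, h2⟩
      exact h (h1 ▸ h2 ▸ (st_adj G e))
  have hval : ∀ u v (h : G.Adj u v), (∀ i, gfl G f i u v = rt (f ⟨s(u, v), h⟩) i) ∨
      ∀ i, gfl G f i u v = - rt (f ⟨s(u, v), h⟩) i := by
    intro u v h
    have hne := h.ne
    have h0 : ∀ i, gfl G f i u v = rt (f ⟨s(u, v), h⟩) i *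
        ((if sE G ⟨s(u, v), h⟩ = u ∧ tE G ⟨s(u, v), h⟩ = v then 1 else 0) -
          (if tE G ⟨s(u, v), h⟩ = u ∧ sE G ⟨s(u, v), h⟩ = v then 1 else 0)) := by
      intro i
      unfold gfl
      refine Finset.sum_eq_single_of_mem (⟨s(u, v), h⟩ : G.edgeSet) (mem_univ _) ?_
      intro e _ hne'
      have h1 := (st_eq G h e).not.1 hne'
      push Not at h1
      rw [if_neg (fun h2 => h1.1 h2.1 h2.2), if_neg (fun h2 => h1.2 h2.1 h2.2)]
      ring
    rcases (st_eq G h ⟨s(u, v), h⟩).1 rfl with ⟨h1, h2⟩ | ⟨h1, h2⟩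
    · left
      intro i
      rw [h0 i, if_pos (And.intro h1 h2), if_neg (fun h3 => hne (h1.symm.trans h3.2))]
      ring
    · right
      intro i
      rw [h0 i, if_neg (fun h3 => hne (h3.1.symm.trans h2)), if_pos (And.intro h1 h2)]
      ring
  have h2 : ∀ i u, ∑ w, gfl G f i u w = 0 := by
    intro i u
    rw [← hf2 u i]
    unfold gfl out
    rw [Finset.sum_comm]
    refine Finset.sum_congr rfl fun e _ => ?_
    rw [← Finset.mul_sum, Finset.sum_sub_distrib]
    congr 2
    · by_cases h : sE G e = u <;> simp [h]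
    · by_cases h : tE G e = u <;> simp [h]
  have h4 : ∀ i u v, gfl G f i u v = 0 ∨ gfl G f i u v = 1 ∨ gfl G f i u v = -1 := by
    intro i u v
    by_cases h : G.Adj u v
    · have h1 : rt (f ⟨s(u, v), h⟩) i = 0 ∨ rt (f ⟨s(u, v), h⟩) i = 1 ∨
          rt (f ⟨s(u, v), h⟩) i = -1 := by
        unfold rt
        split_ifs <;> simp
      rcases hval u v h with h2 | h2
      · rw [h2 i]; exact h1
      · rw [h2 i]
        rcases h1 with h1 | h1 | h1 <;> rw [h1] <;> simp
    · exact Or.inl (hz i u v h)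
  have h6 : ∀ u v, G.Adj u v → ∃ i, gfl G f i u v = 1 ∧ ∀ j, gfl G f j u v = 1 → j = i := by
    intro u v h
    have hne := hf1 ⟨s(u, v), h⟩
    rcases hval u v h with h2 | h2
    · refine ⟨(f ⟨s(u, v), h⟩).1, ?_, ?_⟩
      · rw [h2]
        unfold rt
        rw [if_pos rfl, if_neg (fun h' => hne h'.symm)]
        norm_num
      · intro j hj
        rw [h2] at hj
        unfold rt at hj
        by_cases h3 : (f ⟨s(u, v), h⟩).1 = j
        · exact h3.symm
        · rw [if_neg h3] at hj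
          split_ifs at hj <;> norm_num at hj
    · refine ⟨(f ⟨s(u, v), h⟩).2, ?_, ?_⟩
      · rw [h2]
        unfold rt
        rw [if_neg hne, if_pos rfl]
        norm_num
      · intro j hj
        rw [h2] at hj
        unfold rt at hj
        by_cases h3 : (f ⟨s(u, v), h⟩).2 = j
        · exact h3.symm
        · rw [if_neg h3] at hj
          split_ifs at hj <;> norm_num at hj
  have key : ∀ i, ∃ C : List (Σ v : V, G.Walk v v), (∀ c ∈ C, c.2.IsCycle) ∧
      ∀ u v, tot C u v = ind (gfl G f i u v = 1) := fun i =>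
    flow_decomp (gfl G f i) (hanti i) (h4 i) (fun u v hne => by
      by_contra h'
      exact hne (hz i u v h')) (h2 i)
  choose C hC1 hC2 using key
  refine ⟨C, hC1, ?_, ?_⟩
  · intro i u v
    rw [hC2, hC2, hanti i u v]
    rcases h4 i u v with h7 | h7 | h7
    · rw [h7, ind_neg (by norm_num), ind_neg (by norm_num)]; norm_num
    · rw [h7, ind_pos rfl, ind_neg (by norm_num)]
    · rw [h7, ind_neg (by norm_num), ind_pos (by norm_num)]
  · intro u v huv
    rw [Finset.sum_congr rfl (fun i _ => hC2 i u v)]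
    obtain ⟨i, hi1, hi2⟩ := h6 u v huv
    rw [Finset.sum_eq_single i]
    · exact ind_pos hi1
    · intro k _ hk
      exact ind_neg (fun h' => hk (hi2 k h'))
    · intro h'; exact absurd (mem_univ _) h'

end Pool.Agent.X186.IC
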