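import Pool.Agent.X82.JP3
import Pool.Agent.X186.IC.Defs

/-!
Cycle-continuous maps to the Petersen graph for graphs with few independent small odd cuts.
(Adapted from `Pool/Agent/X82/JP3.lean`.)
-/

set_option autoImplicit false
set_option linter.unusedSectionVars false

namespace Pool.Agent.X186.IC.PM

open Finset Pool.Agent.TH362.TF
open Pool.Agent.X82.JP
open Pool.Agent.X42.FlowH Pool.Agent.X42.FewCover
open Pool.Agent.TH362.TF.Contr (nb_inj nb_ne padj_nb struct)
open Pool.Agent.H160R2.CC (MGraph z2)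
open Pool.Agent.H160R2.CC.MGraph (petersen)

variable {V E : Type} [Fintype V] [DecidableEq V] [Fintype E] [DecidableEq E]

/-- the map to the Petersen graph -/
theorem pet_map {s t : E → V} (hD : Dic s t) :
    ∃ g : E → Fin 15, ∀ ψ : Fin 15 → ZMod 2, petersen.Flow ψ → ∀ v,
      ∑ e, ((if s e = v then ψ (g e) else 0) + (if t e = v then ψ (g e) else 0)) = 0 := by
  classical
  have hval : ∀ (y : Fin 3 → F), (∀ j, y j ≠ 0) → y 0 + y 1 + y 2 = 0 → ∀ x : F, x ≠ 0 →
      ∃ m, x = y m := fun y hy hs => (lam_fact y hy hs).2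
  rcases hD with ⟨φ, hφ1, hφ2⟩ | ⟨κ, hκ, hφ'⟩
  · obtain ⟨y, hy⟩ : ∃ y : Fin 3 → F, y = ![(1, 0), (0, 1), (1, 1)] := ⟨_, rfl⟩
    have hy0 : ∀ j, y j ≠ 0 := by rw [hy]; decide
    have hys : y 0 + y 1 + y 2 = 0 := by rw [hy]; decide
    choose! m hm using hval y hy0 hys
    refine ⟨fun e => pe 0 (m (φ e)), fun ψ hψ v => ?_⟩
    obtain ⟨c, hc⟩ := exists_lam y hy0 hys (fun j => ψ (pe 0 j)) (pe_sum ψ hψ 0)
    refine Eq.trans (sum_congr rfl fun e _ => ?_) (lam_cons c φ v (hφ2 v))
    have h3 : lam c (φ e) = ψ (pe 0 (m (φ e))) := by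
      conv_lhs => rw [hm (φ e) (hφ1 e (mem_univ e))]
      exact hc _
    rw [h3]
  · choose φ hφ using hφ'
    choose ee he1 he2 using fun k => struct s t κ hκ k
    have hyn : ∀ k j, φ k (ee k j) ≠ 0 := by
      intro k j
      refine (hφ k).1 _ (mem_univ _) ?_
      rcases he1 k j with ⟨a, _⟩ | ⟨_, b⟩
      · exact Or.inl a
      · exact Or.inr b
    have hys : ∀ k, φ k (ee k 0) + φ k (ee k 1) + φ k (ee k 2) = 0 := fun k =>
      class_sum hκ k (ee k) (he1 k) (hφ k).2
    choose! m hm using fun k => hval (fun j => φ k (ee k j)) (hyn k) (hys k)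
    refine ⟨fun x => if κ (s x) = κ (t x) then pe (κ (s x)) (m (κ (s x)) (φ (κ (s x)) x)) else
      ej (κ (s x)) (κ (t x)), fun ψ hψ v => ?_⟩
    obtain ⟨k, hk⟩ : ∃ k, κ v = k := ⟨_, rfl⟩
    obtain ⟨c, hc⟩ := exists_lam (fun j => φ k (ee k j)) (hyn k) (hys k) (fun j => ψ (pe k j))
      (pe_sum ψ hψ k)
    have key : ∀ x : E, κ (s x) = k ∨ κ (t x) = k →
        ψ (if κ (s x) = κ (t x) then pe (κ (s x)) (m (κ (s x)) (φ (κ (s x)) x)) else
          ej (κ (s x)) (κ (t x))) = lam c (φ k x) := by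
      intro x hx
      by_cases hin : κ (s x) = κ (t x)
      · have h3 : κ (s x) = k := by
          rcases hx with hx | hx
          · exact hx
          · rw [hin]; exact hx
        rw [if_pos hin, h3]
        have h4 : lam c (φ k x) = ψ (pe k (m k (φ k x))) := by
          conv_lhs => rw [hm k (φ k x) ((hφ k).1 x (mem_univ x) (Or.inl h3))]
          exact hc _
        exact h4.symm
      · have h3 : ¬ (κ (s x) = k ↔ κ (t x) = k) := by
          intro hh
          rcases hx with hx | hx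
          · exact hin (hx.trans (hh.1 hx).symm)
          · exact hin ((hh.2 hx).trans hx.symm)
        obtain ⟨j, rfl⟩ := he2 k x h3
        rw [if_neg hin, hc j]
        congr 1
        rcases he1 k j with ⟨a, b⟩ | ⟨a, b⟩
        · rw [a, b]
          exact (ej_nb k j).1
        · rw [a, b]
          exact (ej_nb k j).2
    refine Eq.trans (sum_congr rfl fun e _ => ?_) (lam_cons c (φ k) v ((hφ k).2 v hk))
    congr 1
    · by_cases h3 : s e = v
      · rw [if_pos h3, if_pos h3]
        exact key e (Or.inl (by rw [h3, hk]))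
      · rw [if_neg h3, if_neg h3]
    · by_cases h3 : t e = v
      · rw [if_pos h3, if_pos h3]
        exact key e (Or.inr (by rw [h3, hk]))
      · rw [if_neg h3, if_neg h3]

end Pool.Agent.X186.IC.PM
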