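import Pool.Agent.X186.IC.Side

/-!
Families of at least seventeen pairwise disjoint vertex sets with small odd boundaries in which no
three sets are pairwise adjacent and every subfamily contains a set adjacent to at most three others
of it.
-/

set_option autoImplicit false
set_option linter.unusedSectionVars false
set_option linter.unusedDecidableInType false
set_option linter.unusedFintypeInType false

namespace Pool.Agent.X186.IC

open Finset Pool.Agent.TH362.TF Pool.Agent.TH362.TF.Red
open Pool.Agent.TH362.TP (MinQ ins)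
open Pool.Agent.X42.FlowQ Pool.Agent.X42.FlowSp Pool.Agent.X42.FlowH

variable {V E : Type} [Fintype V] [DecidableEq V] [DecidableEq E]

open Classical in
/-- A sparse family of vertex sets with small odd boundaries. -/
structure SF (s t : E → V) (S : Finset E) {ι : Type} [Fintype ι] [DecidableEq ι]
    (X : ι → Finset V) : Prop where
  dis : ∀ i j, i ≠ j → Disjoint (X i) (X j)
  odd9 : ∀ i, Odd (bn s t S (X i)) ∧ bn s t S (X i) ≤ 9
  tf : TF (RX s t S X)
  dg : ∀ Y : Finset ι, Y.Nonempty → ∃ i ∈ Y, (Y.filter (RX s t S X i)).card ≤ 3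

/-- There is a sparse family with at least seventeen members. -/
def HasSF (s t : E → V) (S : Finset E) : Prop :=
  ∃ (ι : Type) (_ : Fintype ι) (_ : DecidableEq ι) (X : ι → Finset V), 17 ≤ Fintype.card ι ∧
    SF s t S X

theorem quot_sf {s t : E → V} {S S' : Finset E} {f : V → V} (hS : S' ⊆ S)
    (hf : ∀ e ∈ S, e ∉ S' → f (s e) = f (t e))
    (h : HasSF (fun e => f (s e)) (fun e => f (t e)) S') : HasSF s t S := by
  classical
  obtain ⟨ι, i1, i2, X, h17, h⟩ := h
  have hR : ∀ i j, RX s t S (fun i => univ.filter (fun v => f v ∈ X i)) i j →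
      RX (fun e => f (s e)) (fun e => f (t e)) S' X i j := by
    rintro i j ⟨hij, e, he, h6⟩
    simp only [mem_filter, mem_univ, true_and] at h6
    have h4 := h.dis i j hij
    refine ⟨hij, e, ?_, h6⟩
    by_contra hcon
    have h8 := hf e he hcon
    rcases h6 with ⟨p, q⟩ | ⟨p, q⟩
    · exact Finset.disjoint_left.1 h4 p (h8 ▸ q)
    · exact Finset.disjoint_left.1 h4 q (h8 ▸ p)
  refine ⟨ι, i1, i2, fun i => univ.filter (fun v => f v ∈ X i), h17, ?_, ?_, ?_, ?_⟩
  · intro i j hij
    rw [Finset.disjoint_left]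
    intro v hv hv'
    simp only [mem_filter, mem_univ, true_and] at hv hv'
    exact Finset.disjoint_left.1 (h.dis i j hij) hv hv'
  · intro i
    show Odd (bn s t S (univ.filter (fun v => f v ∈ X i))) ∧
      bn s t S (univ.filter (fun v => f v ∈ X i)) ≤ 9
    rw [← bn_quot hS hf]
    exact h.odd9 i
  · exact ⟨fun i j h4 => rx_symm h4, fun i h4 => h4.1 rfl,
      fun i j l h4 h5 h6 => h.tf.tri i j l (hR _ _ h4) (hR _ _ h5) (hR _ _ h6)⟩
  · intro Y hY
    obtain ⟨i, hi, h4⟩ := h.dg Y hY
    refine ⟨i, hi, le_trans (card_le_card ?_) h4⟩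
    intro j hj
    rw [mem_filter] at hj ⊢
    exact ⟨hj.1, hR _ _ hj.2⟩

theorem min_sf {s t : E → V} {S : Finset E} (h : MinQ s t S) (ho : 16 < (odd s t S).card) :
    HasSF s t S := by
  classical
  have h1 := min_small h ho (c := 4) (by norm_num)
  set P := (odd s t S).filter (fun v => deg s t S v ≤ 2 * 4 + 1) with hP
  have hR : ∀ i j : {v // v ∈ P}, RX s t S (fun v : {v // v ∈ P} => ({v.1} : Finset V)) i j →
      VR s t S i.1 j.1 := by
    rintro i j ⟨_, e, he, h3⟩
    simp only [mem_singleton] at h3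
    exact ⟨e, he, h3⟩
  refine ⟨{v // v ∈ P}, inferInstance, inferInstance, fun v => {v.1}, ?_, ?_, ?_, ?_, ?_⟩
  · rw [Fintype.card_coe]
    have h2 : 6 / 4 = 1 := by norm_num
    rw [h2] at h1
    omega
  · intro i j hij
    rw [Finset.disjoint_singleton]
    exact fun hh => hij (Subtype.ext hh)
  · intro v
    rw [bn_single (noloop h)]
    have h3 := mem_filter.1 v.2
    exact ⟨(mem_filter.1 h3.1).2, h3.2⟩
  · exact ⟨fun i j h4 => rx_symm h4, fun i h4 => h4.1 rfl,
      fun i j l h4 h5 h6 => notri h i.1 j.1 l.1 (hR _ _ h4) (hR _ _ h5) (hR _ _ h6)⟩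
  · intro Y hY
    obtain ⟨v, hv, h3⟩ := degen h (Y.image Subtype.val) (hY.image _)
    obtain ⟨i, hi, rfl⟩ := mem_image.1 hv
    refine ⟨i, hi, le_trans ?_ h3⟩
    rw [← card_image_of_injective _ (Subtype.val_injective : Function.Injective
      (Subtype.val : {v // v ∈ P} → V))]
    apply card_le_card
    intro w hw
    obtain ⟨j, hj, rfl⟩ := mem_image.1 hw
    rw [mem_filter] at hj ⊢
    exact ⟨mem_image_of_mem _ hj.1, hR _ _ hj.2⟩

/-- **The core theorem.** -/
theorem mainSF (s t : E → V) (S : Finset E) (h1 : N1 s t S) (h2 : ¬ HasSF s t S) :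
    NZ s t S ∨ PQ s t S := by
  by_contra hcon
  push Not at hcon
  obtain ⟨f, S', hS, hf, hm⟩ := exists_min h1 hcon.1
  have h3 : 16 < (odd (fun e => f (s e)) (fun e => f (t e)) S').card := by
    by_contra h4
    rcases main16 _ _ _ hm.n1 (not_lt.1 h4) with h5 | h5
    · exact hm.nz h5
    · exact hcon.2 (quot_pq hS hf h5)
  exact h2 (quot_sf hS hf (min_sf hm h3))

/-- In a Petersen quotient of a graph without such a family every class has a flow. -/
theorem sideSF {s t : E → V} {S : Finset E} (h1 : N1 s t S) (h2 : ¬ HasSF s t S) {κ : V → Fin 10}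
    (hκ : IsPQ s t S κ) (k : Fin 10) : ∃ φ : E → F, Inn s t S κ k φ := by
  classical
  obtain ⟨k', hk'⟩ : ∃ k' : Fin 10, k' ≠ k := _root_.exists_ne k
  obtain ⟨w0, hw0⟩ : ∃ w, κ w = k' := by
    by_contra hcon
    push Not at hcon
    have h3 := hκ.1 k'
    have h4 : cut s t S (fun v => decide (κ v = k')) = ∅ := by
      unfold cut
      rw [Finset.filter_eq_empty_iff]
      intro e _ hh
      exact hh (by simp [hcon])
    rw [h4, card_empty] at h3
    exact absurd h3 (by decide)
  have hw : κ w0 ≠ k := by rw [hw0]; exact hk'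
  set f : V → V := fun v => if κ v = k then v else w0 with hf
  have hfk : ∀ v, κ v = k → f v = v := fun v hv => if_pos hv
  have hfn : ∀ v, κ v ≠ k → f v = w0 := fun v hv => if_neg hv
  set S1 : Finset E := S.filter (fun e => κ (s e) = k ∨ κ (t e) = k) with hS1
  have hsub : S1 ⊆ S := filter_subset _ _
  have hcol : ∀ e ∈ S, e ∉ S1 → f (s e) = f (t e) := by
    intro e he he'
    have : ¬ (κ (s e) = k ∨ κ (t e) = k) := fun hh => he' (mem_filter.2 ⟨he, hh⟩)
    push Not at this
    rw [hfn _ this.1, hfn _ this.2]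
  rcases mainSF _ _ _ (quot_n1 hsub hcol h1) (fun hb => h2 (quot_sf hsub hcol hb)) with h3 | h3
  · obtain ⟨φ, hφ1, hφ2⟩ := h3
    refine ⟨φ, ?_, ?_⟩
    · intro e he hh
      exact hφ1 e (mem_filter.2 ⟨he, hh⟩)
    · intro v hv
      have h4 := hφ2 v
      have key : ∀ u : V, (f u = v) ↔ u = v := by
        intro u
        by_cases hu : κ u = k
        · rw [hfk u hu]
        · rw [hfn u hu]
          constructor
          · intro hh
            rw [← hh] at hv
            exact absurd hv hw
          · intro hh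
            rw [hh] at hu
            exact absurd hv hu
      rw [cons_iff] at h4 ⊢
      have h5 : ∑ e ∈ S1, tm (fun e => f (s e)) (fun e => f (t e)) φ v e =
          ∑ e ∈ S1, tm s t φ v e := by
        refine sum_congr rfl fun e _ => ?_
        unfold tm
        simp only [key]
      rw [← h4, h5]
      symm
      apply sum_subset hsub
      intro e he he'
      have h6 : ¬ (κ (s e) = k ∨ κ (t e) = k) := fun hh => he' (mem_filter.2 ⟨he, hh⟩)
      push Not at h6
      unfold tm
      rw [if_neg, if_neg, add_zero]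
      · intro hh
        exact h6.2 (by rw [hh]; exact hv)
      · intro hh
        exact h6.1 (by rw [hh]; exact hv)
  · exfalso
    apply h2
    obtain ⟨κ', hκ'⟩ := h3
    set X : ({m : Fin 10 // m ≠ κ' w0} ⊕ {m : Fin 10 // m ≠ k}) → Finset V :=
      Sum.elim (fun m => univ.filter (fun v => κ' (f v) = m.1))
        (fun m => univ.filter (fun v => κ v = m.1)) with hX
    have hcard : Fintype.card ({m : Fin 10 // m ≠ κ' w0} ⊕ {m : Fin 10 // m ≠ k}) = 18 := by
      rw [Fintype.card_sum, Fintype.card_subtype_compl, Fintype.card_subtype_compl]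
      simp
    have mA : ∀ (m : {m : Fin 10 // m ≠ κ' w0}) (v : V), v ∈ X (Sum.inl m) ↔ κ' (f v) = m.1 := by
      intro m v
      show v ∈ univ.filter (fun v => κ' (f v) = m.1) ↔ _
      rw [mem_filter]
      exact ⟨fun h => h.2, fun h => ⟨mem_univ _, h⟩⟩
    have mB : ∀ (m : {m : Fin 10 // m ≠ k}) (v : V), v ∈ X (Sum.inr m) ↔ κ v = m.1 := by
      intro m v
      show v ∈ univ.filter (fun v => κ v = m.1) ↔ _
      rw [mem_filter]
      exact ⟨fun h => h.2, fun h => ⟨mem_univ _, h⟩⟩
    have mAk : ∀ (m : {m : Fin 10 // m ≠ κ' w0}) (v : V), v ∈ X (Sum.inl m) → κ v = k := by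
      intro m v hv
      by_contra hcon
      rw [mA, hfn v hcon] at hv
      exact m.2 hv.symm
    have hthree : ∀ i, bn s t S (X i) = 3 := by
      rintro (m | m)
      · rw [← hκ'.1 m.1, quot_cut hsub hcol]
        unfold bn
        congr 2
        funext v
        rw [decide_eq_decide]
        exact mA m v
      · rw [← hκ.1 m.1]
        unfold bn
        congr 2
        funext v
        rw [decide_eq_decide]
        exact mB m v
    have hdis : ∀ i j, i ≠ j → Disjoint (X i) (X j) := by
      rintro (i | i) (j | j) hij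
      · rw [Finset.disjoint_left]
        intro v hv hv'
        rw [mA] at hv hv'
        exact hij (congrArg Sum.inl (Subtype.ext (hv.symm.trans hv')))
      · rw [Finset.disjoint_left]
        intro v hv hv'
        have h4 := mAk i v hv
        rw [mB, h4] at hv'
        exact j.2 hv'.symm
      · rw [Finset.disjoint_left]
        intro v hv hv'
        have h4 := mAk j v hv'
        rw [mB, h4] at hv
        exact i.2 hv.symm
      · rw [Finset.disjoint_left]
        intro v hv hv'
        rw [mB] at hv hv'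
        exact hij (congrArg Sum.inr (Subtype.ext (hv.symm.trans hv')))
    -- the adjacencies
    have fAA : ∀ i j, RX s t S X (Sum.inl i) (Sum.inl j) → padj i.1 j.1 = true := by
      rintro i j ⟨hij, e, he, h4⟩
      have hij' : i.1 ≠ j.1 := fun hh => hij (congrArg Sum.inl (Subtype.ext hh))
      rw [mA, mA, mA, mA] at h4
      have h5 : e ∈ S1 := by
        by_contra hcon
        have h6 := hcol e he hcon
        rcases h4 with ⟨p, q⟩ | ⟨p, q⟩
        · exact hij' (p.symm.trans ((congrArg κ' h6).trans q))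
        · exact hij' (q.symm.trans ((congrArg κ' h6).symm.trans p))
      exact (Str.pq_join hκ' hij' h5 h4).1
    have fBB : ∀ i j, RX s t S X (Sum.inr i) (Sum.inr j) → padj i.1 j.1 = true := by
      rintro i j ⟨hij, e, he, h4⟩
      have hij' : i.1 ≠ j.1 := fun hh => hij (congrArg Sum.inr (Subtype.ext hh))
      rw [mB, mB, mB, mB] at h4
      exact (Str.pq_join hκ hij' he h4).1
    have fAB : ∀ i j, RX s t S X (Sum.inl i) (Sum.inr j) → ∃ e ∈ S, Joins κ s t k j.1 e ∧
        ((s e ∈ X (Sum.inl i) ∧ t e ∈ X (Sum.inr j)) ∨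
          (s e ∈ X (Sum.inr j) ∧ t e ∈ X (Sum.inl i))) := by
      rintro i j ⟨_, e, he, h4⟩
      refine ⟨e, he, ?_, h4⟩
      rcases h4 with ⟨p, q⟩ | ⟨p, q⟩
      · exact Or.inl ⟨mAk i _ p, (mB j _).1 q⟩
      · exact Or.inr ⟨(mB j _).1 p, mAk i _ q⟩
    have gAB : ∀ i j, RX s t S X (Sum.inl i) (Sum.inr j) → padj k j.1 = true := by
      intro i j h4
      obtain ⟨e, he, h5, _⟩ := fAB i j h4
      exact (Str.pq_join hκ (Ne.symm j.2) he h5).1
    have fAAB : ∀ i i' j, RX s t S X (Sum.inl i) (Sum.inr j) →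
        RX s t S X (Sum.inl i') (Sum.inr j) → (Sum.inl i : {m : Fin 10 // m ≠ κ' w0} ⊕
          {m : Fin 10 // m ≠ k}) = Sum.inl i' := by
      intro i i' j h4 h5
      obtain ⟨e, he, h6, h7⟩ := fAB i j h4
      obtain ⟨e', he', h8, h9⟩ := fAB i' j h5
      have h10 := (Str.pq_join hκ (Ne.symm j.2) he h6).2 e' he' h8
      subst h10
      by_contra hne
      have d1 := hdis _ _ hne
      have d2 := hdis (Sum.inl i) (Sum.inr j) (by simp)
      have d3 := hdis (Sum.inl i') (Sum.inr j) (by simp)
      rcases h7 with ⟨p, q⟩ | ⟨p, q⟩ <;> rcases h9 with ⟨r, u⟩ | ⟨r, u⟩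
      · exact Finset.disjoint_left.1 d1 p r
      · exact Finset.disjoint_left.1 d2 p r
      · exact Finset.disjoint_left.1 d3 r p
      · exact Finset.disjoint_left.1 d1 q u
    have hTF : TF (RX s t S X) := by
      refine ⟨fun i j h4 => rx_symm h4, fun i h4 => h4.1 rfl, ?_⟩
      rintro (i | i) (j | j) (l | l) h4 h5 h6
      · exact pet_no_tri _ _ _ (fAA _ _ h4) (fAA _ _ h5) (fAA _ _ h6)
      · exact h4.1 (fAAB _ _ _ h6 h5)
      · exact h6.1 (fAAB _ _ _ h4 (rx_symm h5))
      · exact pet_no_tri _ _ _ (gAB _ _ h4) (fBB _ _ h5) (gAB _ _ h6)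
      · exact h5.1 (fAAB _ _ _ (rx_symm h4) (rx_symm h6))
      · exact pet_no_tri _ _ _ (gAB _ _ (rx_symm h4)) (fBB _ _ h6) (gAB _ _ h5)
      · exact pet_no_tri _ _ _ (gAB _ _ (rx_symm h6)) (fBB _ _ h4) (gAB _ _ (rx_symm h5))
      · exact pet_no_tri _ _ _ (fBB _ _ h4) (fBB _ _ h5) (fBB _ _ h6)
    refine ⟨_, inferInstance, inferInstance, X, by rw [hcard]; norm_num, hdis, fun i => ?_, hTF, ?_⟩
    · rw [hthree i]
      exact ⟨by decide, by norm_num⟩
    · intro Y hY
      obtain ⟨i, hi⟩ := hY
      exact ⟨i, hi, (rx_deg hdis i Y).trans (hthree i).le⟩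

end Pool.Agent.X186.IC
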