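import Pool.Agent.X186.IC.PetMap
import Pool.Agent.X186.IC.Cover
import Pool.Agent.Y425.BF6.Cor

/-!
Consequences for the graphs with few light or few independent small odd cuts: covers of all edges
four times by six even subgraphs, and short cycle covers.
(Adapted from `Pool/Agent/Y425/PC/Fin.lean`.)
-/

set_option autoImplicit false
set_option linter.unusedSectionVars false
set_option linter.unusedDecidableInType false
set_option linter.unusedFintypeInType false

namespace Pool.Agent.X186.IC

open Finset Pool.Agent.TH362.TF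
open Pool.Agent.X42.FewCuts (NoLightFamily FewSmallCuts not_bad)
open Pool.Agent.X42.FlowH (mainB sideInn)
open Pool.Agent.Y425.PC (cyc rho)
open Pool.Agent.Y425.BF6.Cor (Cyc Circ Six decomp)
open Pool.Agent.X82.JP (chi chi_flow)

variable {V E : Type} [Fintype V] [DecidableEq V] [Fintype E] [DecidableEq E]

theorem n1_br {s t : E → V}
    (hbridge : ∀ Z : Finset V, (univ.filter fun e => ¬ (s e ∈ Z ↔ t e ∈ Z)).card ≠ 1) :
    N1 s t univ := by
  intro x
  have h1 : cut s t univ x = univ.filter fun e => ¬ (s e ∈ univ.filter (fun v => x v = true) ↔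
      t e ∈ univ.filter (fun v => x v = true)) := by
    unfold cut
    refine filter_congr fun e _ => ?_
    simp only [mem_filter, mem_univ, true_and]
    cases x (s e) <;> cases x (t e) <;> simp
  rw [h1]
  exact hbridge _

theorem dic_of {s t : E → V} (h1 : N1 s t univ)
    (h : NoLightFamily s t ∨ IndependentSmallCuts s t) : Dic s t := by
  rcases h with h | h
  · have h2 := not_bad h1 (Or.inl h)
    rcases mainB s t univ h1 h2 with h3 | ⟨κ, hκ⟩
    · exact Or.inl h3
    · exact Or.inr ⟨κ, hκ, fun k => sideInn h1 h2 hκ k⟩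
  · exact dic h1 h

theorem z2_even {s t : E → V} (P : E → Prop) [DecidablePred P] (v : V)
    (h : ∑ e, ((if s e = v then (if P e then (1 : ZMod 2) else 0) else 0) +
      (if t e = v then (if P e then 1 else 0) else 0)) = 0) :
    Even (∑ e ∈ univ.filter P, ((if s e = v then 1 else 0) + (if t e = v then 1 else 0))) := by
  rw [← ZMod.natCast_eq_zero_iff_even]
  refine Eq.trans ?_ h
  push_cast
  rw [Finset.sum_filter]
  refine Finset.sum_congr rfl fun e _ => ?_
  by_cases h1 : P e <;> by_cases h2 : s e = v <;> by_cases h3 : t e = v <;> simp [h1, h2, h3]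

/-- six even subgraphs cover every edge exactly four times -/
theorem six {s t : E → V} (hD : Dic s t) : Six s t := by
  obtain ⟨g, h1, h2⟩ := CV.cover hD
  refine ⟨fun i => univ.filter (fun e => g i e = 1), fun i v => ?_, fun e => ?_⟩
  · refine z2_even (fun e => g i e = 1) v ?_
    refine Eq.trans ?_ (h1 i v)
    have h3 : ∀ x : ZMod 2, (if x = 1 then (1 : ZMod 2) else 0) = x := by decide
    refine Finset.sum_congr rfl fun e _ => ?_
    simp only [h3]
  · rw [← h2 e]
    congr 1
    ext i
    simp only [mem_filter, mem_univ, true_and]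

/-- the four cycles of a shortest cover of the Petersen graph -/
def i4 : Fin 4 → ℕ := ![1, 11, 20, 44]

theorem cov4 : ∀ g : Fin 120, ∀ c : Fin 15, ∃ k : Fin 4, (cyc (rho g (i4 k))).testBit c = true := by
  decide +kernel

theorem sum4 : ∀ c : Fin 15, ∑ g : Fin 120, ∑ k : Fin 4,
    (if (cyc (rho g (i4 k))).testBit c = true then 1 else 0) = 168 := by
  decide +kernel

theorem lt4 : ∀ g : Fin 120, ∀ k : Fin 4, rho g (i4 k) < 64 := by decide +kernel

/-- four even subgraphs of total length at most 7 / 5 times the number of edges -/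
theorem short4 {s t : E → V} (hD : Dic s t) :
    ∃ D : Fin 4 → Finset E, (∀ k, Cyc s t (D k)) ∧ (∀ e, ∃ k, e ∈ D k) ∧
      5 * ∑ k, (D k).card ≤ 7 * Fintype.card E := by
  obtain ⟨c, hc⟩ := PM.pet_map hD
  have hcard : ∀ i, (univ.filter fun e => (cyc i).testBit (c e) = true).card =
      ∑ e, if (cyc i).testBit (c e) = true then 1 else 0 := by
    intro i
    rw [card_filter]
  obtain ⟨g, _, hle⟩ := exists_le_of_sum_le (s := (univ : Finset (Fin 120)))
    (f := fun g : Fin 120 => 5 * ∑ k : Fin 4, (univ.filter fun e =>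
      (cyc (rho g (i4 k))).testBit (c e) = true).card) (g := fun _ => 7 * Fintype.card E)
    ⟨0, mem_univ _⟩ (by
      rw [← mul_sum, sum_const, card_univ, Fintype.card_fin, smul_eq_mul]
      have h1 : ∀ g : Fin 120, ∑ k : Fin 4, (univ.filter fun e =>
          (cyc (rho g (i4 k))).testBit (c e) = true).card =
          ∑ e, ∑ k : Fin 4, (if (cyc (rho g (i4 k))).testBit (c e) = true then 1 else 0) := by
        intro g
        rw [sum_congr rfl fun k _ => hcard (rho g (i4 k)), sum_comm]
      rw [sum_congr rfl fun g _ => h1 g, sum_comm, sum_congr rfl fun e _ => sum4 (c e),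
        sum_const, card_univ, smul_eq_mul]
      omega)
  refine ⟨fun k => univ.filter fun e => (cyc (rho g (i4 k))).testBit (c e) = true, ?_, ?_, hle⟩
  · intro k v
    refine z2_even _ v ?_
    exact hc (chi (rho g (i4 k))) (chi_flow ⟨_, lt4 g k⟩) v
  · intro e
    obtain ⟨k, hk⟩ := cov4 g (c e)
    exact ⟨k, mem_filter.2 ⟨mem_univ _, hk⟩⟩

/-- covers by circuits -/
theorem short {s t : E → V} (hD : Dic s t) :
    ∃ F : Multiset (Finset E), (∀ C ∈ F, Circ s t C) ∧ (∀ e, ∃ C ∈ F, e ∈ C) ∧
      5 * (F.map Finset.card).sum ≤ 7 * Fintype.card E := by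
  obtain ⟨D, h1, h2, h3⟩ := short4 hD
  obtain ⟨F₀, a1, a2, a3⟩ := decomp _ (D 0) rfl (h1 0)
  obtain ⟨F₁, b1, b2, b3⟩ := decomp _ (D 1) rfl (h1 1)
  obtain ⟨F₂, c1, c2, c3⟩ := decomp _ (D 2) rfl (h1 2)
  obtain ⟨F₃, d1, d2, d3⟩ := decomp _ (D 3) rfl (h1 3)
  refine ⟨F₀ + F₁ + F₂ + F₃, ?_, ?_, ?_⟩
  · intro C hC
    rw [Multiset.mem_add, Multiset.mem_add, Multiset.mem_add] at hC
    rcases hC with ((h | h) | h) | h
    · exact a1 C h
    · exact b1 C h
    · exact c1 C h
    · exact d1 C h
  · intro e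
    obtain ⟨k, hk⟩ := h2 e
    match k, hk with
    | 0, hk =>
      obtain ⟨C, hC, heC⟩ := a2 e hk
      refine ⟨C, ?_, heC⟩
      rw [Multiset.mem_add, Multiset.mem_add, Multiset.mem_add]
      exact Or.inl (Or.inl (Or.inl hC))
    | 1, hk =>
      obtain ⟨C, hC, heC⟩ := b2 e hk
      refine ⟨C, ?_, heC⟩
      rw [Multiset.mem_add, Multiset.mem_add, Multiset.mem_add]
      exact Or.inl (Or.inl (Or.inr hC))
    | 2, hk =>
      obtain ⟨C, hC, heC⟩ := c2 e hk
      refine ⟨C, ?_, heC⟩
      rw [Multiset.mem_add, Multiset.mem_add, Multiset.mem_add]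
      exact Or.inl (Or.inr hC)
    | 3, hk =>
      obtain ⟨C, hC, heC⟩ := d2 e hk
      refine ⟨C, ?_, heC⟩
      rw [Multiset.mem_add, Multiset.mem_add, Multiset.mem_add]
      exact Or.inr hC
  · rw [Multiset.map_add, Multiset.map_add, Multiset.map_add, Multiset.sum_add, Multiset.sum_add,
      Multiset.sum_add, a3, b3, c3, d3]
    rw [Fin.sum_univ_four] at h3
    exact h3

end Pool.Agent.X186.IC
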